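import Pool.Agent.Mg.F1dd261.Ge94a9a

/-! Parts of size one are allowed: the moves inside the parts, and kernels on the parts. -/

namespace Pool.Agent.MP_1dd261_pr.Odd

open Finset
open scoped Classical

variable {n k : ℕ} {P : Type} (pt : Fin n → P) (w : ℝ)

/-- The density inside a part, trivial on parts with one vertex. -/
noncomputable def hd (θ : ℝ) (x v : Fin n) : ℝ := if 2 ≤ sz pt (pt v) then hh pt θ x v else 1

/-- The law of the move of walker `j` into the part `p` when the old parts are `γ`. -/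
noncomputable def rd (j : Fin k) (c : Fin k → Fin n) (γ : Fin k → P) (p : P) (v : Fin n) : ℝ :=
  uni pt p v * ∏ l, if j ≤ l ∧ γ l = p then hd pt (th w l j) (c l) v else 1

/-- The same law when the walkers are independent with laws `q l`. -/
noncomputable def md (j : Fin k) (q : Fin k → Fin n → ℝ) (γ : Fin k → P) (p : P) (v : Fin n) : ℝ :=
  uni pt p v * ∏ l, if j ≤ l ∧ γ l = p then ∑ u, q l u * hd pt (th w l j) u v else 1

variable {pt w}

theorem sum_un (hs : ∀ p, 1 ≤ sz pt p) (p : P) : ∑ v, uni pt p v = 1 := by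
  have := hs p
  simp only [uni]
  rw [sum_part, mul_one_div_cancel (by linarith)]

theorem hd_comm (θ : ℝ) (x v : Fin n) : hd pt θ x v = hd pt θ v x := by
  unfold hd
  by_cases h : pt x = pt v
  · rw [h, hh_comm]
  · simp [hh, h, Ne.symm h]

theorem sum_un_hd (hs : ∀ p, 1 ≤ sz pt p) {θ : ℝ} (hθ : 0 ≤ θ) (p : P) (x : Fin n) :
    ∑ v, uni pt p v * hd pt θ x v = 1 := by
  by_cases h2 : 2 ≤ sz pt p
  · have h3 : θ + sz pt p - 1 ≠ 0 := by linarith
    have h4 : sz pt p ≠ 0 := by linarith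
    by_cases h : pt x = p
    · have e : ∀ v, uni pt p v * hd pt θ x v = (if pt v = p then 1 / (θ + sz pt p - 1) else 0) +
          if x = v then (θ - 1) / (θ + sz pt p - 1) else 0 := fun v => by
        unfold uni hd hh
        by_cases h1 : x = v
        · subst h1
          simp only [h, h2, if_true]
          field_simp
          ring
        · by_cases h5 : pt v = p
          · simp only [h, h5, h1, h2, if_true, if_false]
            field_simp
            ring
          · simp [h1, h5]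
      simp only [e, sum_add_distrib, sum_part, sum_ite_eq, mem_univ, if_true]
      field_simp
      ring
    · rw [← sum_un hs p]
      refine sum_congr rfl fun v _ => ?_
      unfold uni hd hh
      by_cases h5 : pt v = p
      · rw [if_neg (show ¬ pt x = pt v from h5 ▸ h), ite_self, mul_one]
      · simp [h5]
  · rw [← sum_un hs p]
    refine sum_congr rfl fun v _ => ?_
    unfold uni hd
    by_cases h5 : pt v = p
    · rw [h5, if_neg h2, mul_one]
    · simp [h5]

theorem hd_nonneg {θ : ℝ} (hθ : 0 ≤ θ) (x v : Fin n) : 0 ≤ hd pt θ x v := by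
  unfold hd hh
  split_ifs with h
  · have h3 : 0 ≤ θ + sz pt (pt v) - 1 := by linarith
    have h4 : 0 ≤ sz pt (pt v) := by linarith
    positivity
  · have h3 : 0 ≤ θ + sz pt (pt v) - 1 := by linarith
    have h4 : 0 ≤ sz pt (pt v) := by linarith
    positivity
  · exact zero_le_one
  · exact zero_le_one

theorem rd_nonneg (hw : 0 ≤ w) (j : Fin k) (c : Fin k → Fin n) (γ : Fin k → P) (p : P)
    (v : Fin n) : 0 ≤ rd pt w j c γ p v := by
  refine mul_nonneg (uni_nonneg _ _) (prod_nonneg fun l _ => ?_)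
  split_ifs
  · exact hd_nonneg (th_nonneg hw _ _) _ _
  · exact zero_le_one

theorem sum_gen (hs : ∀ p, 1 ≤ sz pt p) (hw : 0 ≤ w) (A : Fin k → Prop) [DecidablePred A]
    (hA : ∀ a b, A a → A b → a = b) (q : Fin k → Fin n → ℝ) (hq : ∀ l, ∑ u, q l u = 1)
    (j : Fin k) (p : P) :
    ∑ v, uni pt p v * ∏ l, (if A l then ∑ u, q l u * hd pt (th w l j) u v else 1) = 1 := by
  rw [one_wit _ hA _ (sum_un hs _)]
  refine prod_eq_one fun l _ => ?_
  split_ifs with h
  · simp only [mul_sum]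
    rw [sum_comm, ← hq l]
    refine sum_congr rfl fun u _ => ?_
    simp only [mul_left_comm _ (q l u), ← mul_sum]
    rw [sum_un_hd hs (th_nonneg hw _ _), mul_one]
  · rfl

theorem sum_rd (hs : ∀ p, 1 ≤ sz pt p) (hw : 0 ≤ w) (j : Fin k) (c : Fin k → Fin n)
    (γ : Fin k → P) (hγ : ∀ a b, j ≤ a → j ≤ b → γ a = γ b → a = b) (p : P) :
    ∑ v, rd pt w j c γ p v = 1 := by
  rw [← sum_gen hs hw (fun l => j ≤ l ∧ γ l = p)
    (fun a b ha hb => hγ a b ha.1 hb.1 (ha.2.trans hb.2.symm))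
    (fun l u => if u = c l then 1 else 0) (by simp) j p]
  simp [rd]

theorem push_d (q : Fin k → Fin n → ℝ) (hq : ∀ l, ∑ u, q l u = 1) (γ γ' : Fin k → P)
    (h : Function.Injective γ') (d : Fin k → Fin n) :
    ∑ c : Fin k → Fin n, (∏ l, q l (c l)) * ∏ j, rd pt w j c γ (γ' j) (d j) =
      ∏ j, md pt w j q γ (γ' j) (d j) := by
  simp only [rd, md, prod_mul_distrib]
  rw [prod_comm]
  simp only [mul_left_comm (∏ l, q l _), ← mul_sum]
  congr 1
  rw [← prod_congr rfl fun l _ => one_wit (fun j => j ≤ l ∧ γ l = γ' j)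
    (fun a b ha hb => h (ha.2.symm.trans hb.2)) (q l) (hq l)
    (fun j u => hd pt (th w l j) u (d j)), prod_univ_sum, Fintype.piFinset_univ]
  refine sum_congr rfl fun c _ => ?_
  rw [prod_mul_distrib, prod_comm]

theorem rd_congr (j : Fin k) {c c' : Fin k → Fin n} {γ γ' : Fin k → P}
    (h : ∀ l, j ≤ l → c l = c' l) (h' : ∀ l, j ≤ l → γ l = γ' l) (p : P) (v : Fin n) :
    rd pt w j c γ p v = rd pt w j c' γ' p v := by
  unfold rd
  congr 1
  refine prod_congr rfl fun l _ => ?_
  by_cases h1 : j ≤ l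
  · rw [h l h1, h' l h1]
  · simp [h1]

theorem walk_eq (hs : ∀ p, 1 ≤ sz pt p) (hw : 0 ≤ w) (x y : Fin n) :
    uni pt (pt y) y * (if pt x = pt y then hd pt w x y else 1) * FF pt w (pt x) (pt y) =
      walk n w x y := by
  have a2 := hs (pt y)
  have a4 : sz pt (pt y) ≠ 0 := by linarith
  rw [uni, if_pos rfl, walk, FF]
  by_cases hg : pt x = pt y
  · rw [if_pos hg, if_pos hg.symm, hg, hd]
    by_cases h2 : 2 ≤ sz pt (pt y)
    · have a3 : w + sz pt (pt y) - 1 ≠ 0 := by linarith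
      rw [if_pos h2, hh, if_pos hg]
      simp only [eq_comm (a := x)]
      split_ifs <;> field_simp
    · have h3 : (univ.filter fun v => pt v = pt y).card ≤ 1 := by
        have : ((univ.filter fun v => pt v = pt y).card : ℝ) < 2 := not_le.1 h2
        have h4 : (univ.filter fun v => pt v = pt y).card < 2 := by exact_mod_cast this
        omega
      have h5 : y = x := card_le_one.1 h3 y (by simp) x (by simp [hg])
      have h6 : sz pt (pt y) = 1 := le_antisymm (by unfold sz; exact_mod_cast h3) a2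
      rw [if_neg h2, if_pos h5, h6]
      ring
  · rw [if_neg hg, if_neg (Ne.symm hg), if_neg (show ¬ y = x from fun h => hg (h ▸ rfl))]
    field_simp

section Ker

variable {Φ : Type} [Fintype Φ] (Γ : Φ → Fin k → P) (Q : Φ → Φ → ℝ)

/-- The probability that the first `j` new parts are those of `g`. -/
noncomputable def NN (φ : Φ) (j : ℕ) (g : Fin k → P) : ℝ :=
  ∑ φ', if ∀ l : Fin k, (l : ℕ) < j → Γ φ' l = g l then Q φ φ' else 0

variable {Γ Q}

theorem NN_congr (φ : Φ) (j : ℕ) {g g' : Fin k → P} (h : ∀ l : Fin k, (l : ℕ) < j → g l = g' l) :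
    NN Γ Q φ j g = NN Γ Q φ j g' :=
  sum_congr rfl fun _ _ => if_congr (forall₂_congr fun l hl => by rw [h l hl]) rfl rfl

theorem NN_nonneg (hQ : ∀ φ φ', 0 ≤ Q φ φ') (φ : Φ) (j : ℕ) (g : Fin k → P) :
    0 ≤ NN Γ Q φ j g :=
  sum_nonneg fun _ _ => by
    split_ifs
    · exact hQ _ _
    · exact le_rfl

theorem NN_le (hQ : ∀ φ φ', 0 ≤ Q φ φ') (φ : Φ) (j : ℕ) (g : Fin k → P) :
    NN Γ Q φ (j + 1) g ≤ NN Γ Q φ j g :=
  sum_le_sum fun φ' _ => by
    by_cases h : ∀ l : Fin k, (l : ℕ) < j + 1 → Γ φ' l = g l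
    · rw [if_pos h, if_pos fun l hl => h l (by omega)]
    · rw [if_neg h]
      split_ifs
      · exact hQ _ _
      · exact le_rfl

theorem NN_sum [Fintype P] (φ : Φ) (J : Fin k) (g : Fin k → P) :
    ∑ p, NN Γ Q φ (J + 1) (Function.update g J p) = NN Γ Q φ J g := by
  unfold NN
  rw [sum_comm]
  refine sum_congr rfl fun φ' _ => ?_
  rw [sum_eq_single (Γ φ' J)]
  · refine if_congr ⟨fun h l hl => ?_, fun h l hl => ?_⟩ rfl rfl
    · rw [h l (by omega), Function.update_of_ne (fun e => by simp [e] at hl)]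
    · by_cases e : l = J
      · rw [e, Function.update_self]
      · have : (l : ℕ) ≠ J := fun h => e (Fin.ext h)
        rw [Function.update_of_ne e, h l (by omega)]
  · intro p _ hp
    refine if_neg fun h => hp ?_
    rw [h J (Nat.lt_succ_self _), Function.update_self]
  · simp

theorem exists_ker [Fintype P] (hQ : ∀ φ φ', 0 ≤ Q φ φ')
    (hC : ∀ (J : Fin k) φ₁ φ₂ g, (∀ l, J ≤ l → Γ φ₁ l = Γ φ₂ l) →
      NN Γ Q φ₁ (J + 1) g * NN Γ Q φ₂ J g = NN Γ Q φ₂ (J + 1) g * NN Γ Q φ₁ J g) :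
    ∃ Kc : Fin k → (Fin k → P) → P → ℝ, (∀ j γ p, 0 ≤ Kc j γ p) ∧ (∀ j γ, ∑ p, Kc j γ p = 1) ∧
      ∀ φ (J : Fin k) g γ, (∀ l, l < J → γ l = g l) → (∀ l, J ≤ l → γ l = Γ φ l) →
        NN Γ Q φ J g * Kc J γ (g J) = NN Γ Q φ (J + 1) g := by
  refine ⟨fun J γ p => if h : ∃ φ, (∀ l, J ≤ l → γ l = Γ φ l) ∧ NN Γ Q φ J γ ≠ 0 then
    NN Γ Q h.choose (J + 1) (Function.update γ J p) / NN Γ Q h.choose J γ
    else if p = γ J then 1 else 0, fun J γ p => ?_, fun J γ => ?_, fun φ J g γ h1 h2 => ?_⟩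
  · dsimp only
    split_ifs
    · exact div_nonneg (NN_nonneg hQ _ _ _) (NN_nonneg hQ _ _ _)
    · exact zero_le_one
    · exact le_rfl
  · dsimp only
    by_cases h : ∃ φ, (∀ l, J ≤ l → γ l = Γ φ l) ∧ NN Γ Q φ J γ ≠ 0
    · simp only [dif_pos h, ← sum_div]
      rw [NN_sum, div_self h.choose_spec.2]
    · simp [dif_neg h]
  · dsimp only
    have e1 : ∀ ψ, NN Γ Q ψ J γ = NN Γ Q ψ J g := fun ψ => NN_congr ψ J h1
    by_cases h0 : NN Γ Q φ J g = 0
    · rw [h0, zero_mul]
      exact le_antisymm (NN_nonneg hQ _ _ _) (h0 ▸ NN_le hQ φ J g)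
    · have h : ∃ φ, (∀ l, J ≤ l → γ l = Γ φ l) ∧ NN Γ Q φ J γ ≠ 0 := ⟨φ, h2, e1 φ ▸ h0⟩
      have e2 : NN Γ Q h.choose (J + 1) (Function.update γ J (g J)) =
          NN Γ Q h.choose (J + 1) g := by
        refine NN_congr _ _ fun l hl => ?_
        by_cases e : l = J
        · rw [e, Function.update_self]
        · have : (l : ℕ) ≠ J := fun h => e (Fin.ext h)
          rw [Function.update_of_ne e, h1 l (show (l : ℕ) < J by omega)]
      have h3 := h.choose_spec.2
      have h4 := hC J φ h.choose g fun l hl => (h2 l hl).symm.trans (h.choose_spec.1 l hl)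
      rw [dif_pos h, e2]
      rw [e1] at h3 ⊢
      field_simp
      linarith

end Ker

end Pool.Agent.MP_1dd261_pr.Odd
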