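import Pool.Agent.MP_1dd261_pr.Odd.A

/-! From a chain of frames to a Markovian avoidance coupling. -/

namespace Pool.Agent.MP_1dd261_pr.Odd

open Finset
open scoped Classical

variable {n k : ℕ} [NeZero k] {P : Type} (pt : Fin n → P) (w : ℝ)
  {Φ : Type} [Fintype Φ] (Γ : Φ → Fin k → P) (Q : Φ → Φ → ℝ)
  (Kc : Fin k → (Fin k → P) → P → ℝ)

/-- The moves. -/
noncomputable def KD (j : Fin k) (c : Fin k → Fin n) (v : Fin n) : ℝ :=
  if ∀ a b, j ≤ a → j ≤ b → pt (c a) = pt (c b) → a = b then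
    Kc j (fun l => pt (c l)) (pt v) * rd pt w j c (fun l => pt (c l)) (pt v) v
  else if v = c j then 1 else 0

/-- A mixture over the frames of product laws in which the walkers after `i` are uniform. -/
noncomputable def La (i : Fin k) (r : Fin k → P → Fin n → ℝ) (b : Φ → ℝ) (d : Fin k → Fin n) : ℝ :=
  ∑ φ, b φ * ∏ l, if l ≤ i then r l (Γ φ l) (d l) else uni pt (Γ φ l) (d l)

/-- The generators of the space of conditional laws. -/
def Gen (B : Set (Φ → ℝ)) (i : Fin k) (x : Fin n) : Set ((Fin k → Fin n) → ℝ) :=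
  {ν | ∃ b ∈ B, ∃ r : Fin k → P → Fin n → ℝ, (∀ l p, ∑ v, r l p v = 1) ∧
    (∀ l p v, r l p v ≠ 0 → pt v = p) ∧ (∀ v, r i (pt x) v = if v = x then 1 else 0) ∧
    (∀ φ, b φ ≠ 0 → Γ φ i = pt x) ∧ ν = La pt Γ i r b}

variable {pt w Γ Q Kc}

theorem round_d (hΓ : ∀ φ, Function.Injective (Γ φ)) (hQ1 : ∀ φ, ∑ φ', Q φ φ' = 1)
    (hK : ∀ φ (J : Fin k) g γ, (∀ l, l < J → γ l = g l) → (∀ l, J ≤ l → γ l = Γ φ l) →
      NN Γ Q φ J g * Kc J γ (g J) = NN Γ Q φ (J + 1) g)
    (c : Fin k → Fin n) (φ : Φ) (hc : ∀ l, pt (c l) = Γ φ l) (j : ℕ) (hj : j ≤ k)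
    (d : Fin k → Fin n) :
    steps (fun d => if d = c then 1 else 0) (KD pt w Kc) j d = NN Γ Q φ j (fun l => pt (d l)) *
      ∏ l : Fin k, if (l : ℕ) < j then rd pt w l c (Γ φ) (pt (d l)) (d l)
        else if d l = c l then 1 else 0 := by
  induction j generalizing d with
  | zero =>
    simp only [steps, NN, Nat.not_lt_zero, if_false, false_imp_iff, implies_true, if_true, hQ1,
      one_mul, prod_boole, mem_univ, true_imp_iff, funext_iff]
  | succ j ih =>
    obtain ⟨J, rfl⟩ : ∃ J : Fin k, (J : ℕ) = j := ⟨⟨j, hj⟩, rfl⟩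
    have hJ : Fin.ofNat k J = J := Fin.ext (Nat.mod_eq_of_lt J.2)
    set e := Function.update d J (c J) with he
    rw [steps, hJ]
    dsimp only
    rw [sum_turn, sum_eq_single (c J), ← he, ih (by omega)]
    · by_cases h : ∀ l, J ≤ l → e l = c l
      · have h1 : ∀ l, J ≤ l → pt (e l) = Γ φ l := fun l hl => by rw [h l hl, hc]
        have h2 : ∀ l, l < J → pt (e l) = pt (d l) := fun l hl => by
          rw [he, Function.update_of_ne hl.ne]
        rw [KD, if_pos fun a b ha hb hab => hΓ φ (by rw [← h1 a ha, ← h1 b hb, hab]),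
          rd_congr J h h1, ← hK φ J (fun l => pt (d l)) (fun l => pt (e l)) h2 h1,
          NN_congr φ J (g := fun l => pt (e l)) (g' := fun l => pt (d l)) h2,
          ← mul_prod_erase univ _ (mem_univ J), ← mul_prod_erase univ _ (mem_univ J),
          if_pos (Nat.lt_succ_self _), if_neg (lt_irrefl _), if_pos (h J le_rfl), one_mul]
        have h3 : (∏ l ∈ univ.erase J, if (l : ℕ) < J then rd pt w l c (Γ φ) (pt (e l)) (e l)
            else if e l = c l then 1 else 0) = ∏ l ∈ univ.erase J,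
            if (l : ℕ) < J + 1 then rd pt w l c (Γ φ) (pt (d l)) (d l)
            else if d l = c l then 1 else 0 := by
          refine prod_congr rfl fun l hl => ?_
          have h4 := ne_of_mem_erase hl
          have h5 : (l : ℕ) ≠ J := fun h => h4 (Fin.ext h)
          rw [he, Function.update_of_ne h4]
          exact if_congr (by omega) rfl rfl
        rw [h3]
        ring
      · push Not at h
        obtain ⟨l, h2, h3⟩ := h
        have h4 : l ≠ J := fun h => h3 (by rw [h, he, Function.update_self])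
        have h5 : (J : ℕ) < l := lt_of_le_of_ne h2 fun h => h4 (Fin.ext h.symm)
        rw [prod_eq_zero (mem_univ l), prod_eq_zero (mem_univ l), mul_zero, zero_mul, mul_zero]
        · rw [if_neg (by omega), if_neg (by rwa [he, Function.update_of_ne h4] at h3)]
        · rw [if_neg (by omega), if_neg h3]
    · intro u _ hu
      rw [ih (by omega), prod_eq_zero (mem_univ J), mul_zero, zero_mul]
      rw [if_neg (lt_irrefl _), Function.update_self, if_neg hu]
    · simp

omit [NeZero k] in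
theorem La_sum (hs : ∀ p, 1 ≤ sz pt p) (i : Fin k) (r : Fin k → P → Fin n → ℝ)
    (hr : ∀ l p, ∑ v, r l p v = 1) (b : Φ → ℝ) : ∑ d, La pt Γ i r b d = ∑ φ, b φ := by
  unfold La
  rw [sum_comm]
  refine sum_congr rfl fun φ _ => ?_
  rw [← mul_sum, ← Fintype.piFinset_univ,
    ← prod_univ_sum (fun _ => univ) fun l v => if l ≤ i then r l (Γ φ l) v else uni pt (Γ φ l) v,
    prod_eq_one, mul_one]
  intro l _
  split_ifs
  · exact hr _ _
  · exact sum_un hs _

omit [NeZero k] in
theorem restrict (hs : ∀ p, 1 ≤ sz pt p) {B : Set (Φ → ℝ)} (i : Fin k)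
    (hB : ∀ b ∈ B, ∀ φ ψ, b φ ≠ 0 → b ψ ≠ 0 → ∀ l, l ≤ i → Γ φ l = Γ ψ l)
    (r : Fin k → P → Fin n → ℝ) (hr : ∀ l p, ∑ v, r l p v = 1)
    (hr' : ∀ l p v, r l p v ≠ 0 → pt v = p) (y : Fin n) (b : Φ → ℝ)
    (hb : b ∈ Submodule.span ℝ B) :
    (fun d => if d i = y then La pt Γ i r b d else 0) ∈ Submodule.span ℝ (Gen pt Γ B i y) ∧
      ∑ d, (if d i = y then La pt Γ i r b d else 0) =
        r i (pt y) y * ∑ φ, if Γ φ i = pt y then b φ else 0 := by
  set s : Fin k → P → Fin n → ℝ := Function.update r i fun p v =>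
    if p = pt y then (if v = y then 1 else 0) else r i p v with hsd
  have s1 : ∀ l p, ∑ v, s l p v = 1 := fun l p => by
    by_cases h : l = i
    · rw [h, hsd, Function.update_self]
      by_cases h' : p = pt y
      · simp [h']
      · simp [h', hr]
    · rw [hsd, Function.update_of_ne h, hr]
  have s2 : ∀ l p v, s l p v ≠ 0 → pt v = p := fun l p v => by
    by_cases h : l = i
    · rw [h, hsd, Function.update_self]
      by_cases h' : p = pt y
      · simp only [h', if_true, ne_eq, ite_eq_right_iff, one_ne_zero, imp_false, not_not]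
        rintro rfl
        rfl
      · simp only [h', if_false]
        exact hr' _ _ _
    · rw [hsd, Function.update_of_ne h]
      exact hr' _ _ _
  have s3 : ∀ v, s i (pt y) v = if v = y then 1 else 0 := fun v => by
    rw [hsd, Function.update_self, if_pos rfl]
  have key : ∀ b : Φ → ℝ, (fun d => if d i = y then La pt Γ i r b d else 0) =
      r i (pt y) y • La pt Γ i s fun φ => if Γ φ i = pt y then b φ else 0 := fun b => by
    funext d
    rw [Pi.smul_apply, smul_eq_mul, La, La, mul_sum]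
    have e : ∀ φ, r i (pt y) y * ((if Γ φ i = pt y then b φ else 0) *
        ∏ l, if l ≤ i then s l (Γ φ l) (d l) else uni pt (Γ φ l) (d l)) =
        if d i = y then b φ * ∏ l, if l ≤ i then r l (Γ φ l) (d l) else uni pt (Γ φ l) (d l)
        else 0 := fun φ => by
      rw [← mul_prod_erase univ _ (mem_univ i), ← mul_prod_erase univ _ (mem_univ i),
        if_pos le_rfl, if_pos le_rfl,
        prod_congr rfl fun l hl => by rw [hsd, Function.update_of_ne (ne_of_mem_erase hl)]]
      by_cases h1 : Γ φ i = pt y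
      · rw [if_pos h1, h1, s3]
        split_ifs with h2
        · rw [h2]
          ring
        · ring
      · rw [if_neg h1, zero_mul, mul_zero]
        split_ifs with h2
        · have : r i (Γ φ i) (d i) = 0 := by
            by_contra h3
            exact h1 (by rw [← hr' _ _ _ h3, h2])
          rw [this, zero_mul, mul_zero]
        · rfl
    simp only [e]
    split_ifs <;> simp
  refine ⟨?_, ?_⟩
  · induction hb using Submodule.span_induction with
    | mem b hb =>
      rw [key]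
      refine Submodule.smul_mem _ _ ?_
      by_cases h : ∃ φ, b φ ≠ 0 ∧ Γ φ i = pt y
      · obtain ⟨φ, h1, h2⟩ := h
        have h3 : ∀ ψ, b ψ ≠ 0 → Γ ψ i = pt y := fun ψ h => (hB b hb ψ φ h h1 i le_rfl).trans h2
        refine Submodule.subset_span ⟨b, hb, s, s1, s2, s3, h3, ?_⟩
        congr 1
        funext ψ
        split_ifs with h4
        · rfl
        · by_contra h5
          exact h4 (h3 ψ (Ne.symm h5))
      · have : (La pt Γ i s fun φ => if Γ φ i = pt y then b φ else 0) = 0 := by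
          funext d
          refine sum_eq_zero fun φ _ => mul_eq_zero_of_left ?_ _
          dsimp only
          split_ifs with h4
          · by_contra h5
            exact h ⟨φ, h5, h4⟩
          · rfl
        rw [this]
        exact Submodule.zero_mem _
    | zero =>
      have : (fun d => if d i = y then La pt Γ i r 0 d else 0) = 0 := by
        funext d
        simp [La]
      rw [this]
      exact Submodule.zero_mem _
    | add a b _ _ ha hb =>
      have : (fun d => if d i = y then La pt Γ i r (a + b) d else 0) =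
          (fun d => if d i = y then La pt Γ i r a d else 0) +
            fun d => if d i = y then La pt Γ i r b d else 0 := by
        funext d
        simp only [La, Pi.add_apply, add_mul, sum_add_distrib]
        split_ifs <;> simp
      rw [this]
      exact Submodule.add_mem _ ha hb
    | smul t a _ ha =>
      have : (fun d => if d i = y then La pt Γ i r (t • a) d else 0) =
          t • fun d => if d i = y then La pt Γ i r a d else 0 := by
        funext d
        simp only [La, Pi.smul_apply, smul_eq_mul, mul_assoc, ← mul_sum]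
        split_ifs <;> simp
      rw [this]
      exact Submodule.smul_mem _ _ ha
  · have := congrFun (key b)
    simp only [this, Pi.smul_apply, smul_eq_mul, ← mul_sum, La_sum hs i s s1]

theorem step_gen (hs : ∀ p, 1 ≤ sz pt p) (hw : 0 ≤ w) (hΓ : ∀ φ, Function.Injective (Γ φ))
    (hQ1 : ∀ φ, ∑ φ', Q φ φ' = 1)
    (hK : ∀ φ (J : Fin k) g γ, (∀ l, l < J → γ l = g l) → (∀ l, J ≤ l → γ l = Γ φ l) →
      NN Γ Q φ J g * Kc J γ (g J) = NN Γ Q φ (J + 1) g)
    (i : Fin k) (r : Fin k → P → Fin n → ℝ) (hr : ∀ l p, ∑ v, r l p v = 1)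
    (hr' : ∀ l p v, r l p v ≠ 0 → pt v = p) (b : Φ → ℝ) (γ : Fin k → P)
    (hb : ∀ φ, b φ ≠ 0 → ∀ l, l ≤ i → Γ φ l = γ l) :
    steps (La pt Γ i r b) (KD pt w Kc) k = La pt Γ i (fun l p v => uni pt p v *
      ∏ o, if l ≤ o ∧ o ≤ i ∧ γ o = p then ∑ u, r o (γ o) u * hd pt (th w o l) u v else 1)
      fun φ' => ∑ φ, b φ * Q φ φ' := by
  funext d
  rw [steps_linear]
  simp only [La, sum_mul]
  rw [sum_comm, sum_comm (f := fun φ' φ => b φ * Q φ φ' * _)]
  refine sum_congr rfl fun φ _ => ?_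
  by_cases h0 : b φ = 0
  · simp [h0]
  simp only [mul_assoc, ← mul_sum]
  congr 1
  set q : Fin k → Fin n → ℝ := fun l v => if l ≤ i then r l (Γ φ l) v else uni pt (Γ φ l) v
    with hq
  have q1 : ∀ l, ∑ v, q l v = 1 := fun l => by
    simp only [hq]
    split_ifs
    · exact hr _ _
    · exact sum_un hs _
  have q2 : ∀ l v, q l v ≠ 0 → pt v = Γ φ l := fun l v => by
    simp only [hq]
    split_ifs
    · exact hr' _ _ _
    · exact uni_ne
  have e1 : ∀ c : Fin k → Fin n, (∏ l, q l (c l)) *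
      steps (fun d => if d = c then 1 else 0) (KD pt w Kc) k d =
      NN Γ Q φ k (fun l => pt (d l)) *
        ((∏ l, q l (c l)) * ∏ l, rd pt w l c (Γ φ) (pt (d l)) (d l)) := fun c => by
    by_cases hc : ∀ l, pt (c l) = Γ φ l
    · simp only [round_d hΓ hQ1 hK c φ hc k le_rfl, Fin.is_lt, if_true]
      ring
    · obtain ⟨l, hl⟩ := not_forall.1 hc
      have : ∏ l, q l (c l) = 0 := prod_eq_zero (mem_univ l) (by_contra fun h => hl (q2 _ _ h))
      simp [this]
  rw [sum_congr rfl fun c _ => e1 c, ← mul_sum, NN, sum_mul]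
  refine sum_congr rfl fun φ' _ => ?_
  simp only [Fin.is_lt, true_imp_iff]
  split_ifs with h
  · congr 1
    simp only [← h]
    rw [push_d q q1 (Γ φ) (Γ φ') (hΓ φ')]
    refine prod_congr rfl fun l _ => ?_
    have e2 : ∀ o v, i < o → ∑ u, q o u * hd pt (th w o l) u v = 1 := fun o v ho => by
      simp only [hq, if_neg (not_le.2 ho), hd_comm _ _ v]
      exact sum_un_hd hs (th_nonneg hw _ _) _ _
    unfold md
    split_ifs with hl
    · congr 1
      refine prod_congr rfl fun o _ => ?_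
      by_cases ho : o ≤ i
      · simp only [hq, ho, if_true, true_and, hb φ h0 o ho]
      · simp only [ho, false_and, and_false, if_false]
        split_ifs
        · exact e2 _ _ (not_le.1 ho)
        · rfl
    · rw [prod_eq_one, mul_one]
      intro o _
      split_ifs with h1
      · exact e2 _ _ ((not_le.1 hl).trans_le h1.1)
      · rfl
  · obtain ⟨l, hl⟩ := not_forall.1 h
    rw [zero_mul, prod_eq_zero (mem_univ l), mul_zero]
    have : uni pt (Γ φ' l) (d l) = 0 := by_contra fun h => hl (uni_ne h).symm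
    split_ifs
    · rw [this, zero_mul]
    · exact this

theorem faith_step (hs : ∀ p, 1 ≤ sz pt p) (hw : 0 ≤ w) (hΓ : ∀ φ, Function.Injective (Γ φ))
    (hQ1 : ∀ φ, ∑ φ', Q φ φ' = 1)
    (hK : ∀ φ (J : Fin k) g γ, (∀ l, l < J → γ l = g l) → (∀ l, J ≤ l → γ l = Γ φ l) →
      NN Γ Q φ J g * Kc J γ (g J) = NN Γ Q φ (J + 1) g)
    {B : Set (Φ → ℝ)} (i : Fin k)
    (hB : ∀ b ∈ B, ∀ φ ψ, b φ ≠ 0 → b ψ ≠ 0 → ∀ l, l ≤ i → Γ φ l = Γ ψ l)
    (hcone : ∀ b ∈ B, (fun φ' => ∑ φ, b φ * Q φ φ') ∈ Submodule.span ℝ B)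
    (hlaw : ∀ b ∈ B, ∀ p p', (∀ φ, b φ ≠ 0 → Γ φ i = p) →
      ∑ φ', (if Γ φ' i = p' then ∑ φ, b φ * Q φ φ' else 0) = (∑ φ, b φ) * FF pt w p p')
    (x y : Fin n) (ν : (Fin k → Fin n) → ℝ) (hν : ν ∈ Submodule.span ℝ (Gen pt Γ B i x)) :
    (fun c => if c i = y then steps ν (KD pt w Kc) k c else 0) ∈
        Submodule.span ℝ (Gen pt Γ B i y) ∧
      ∑ c, (if c i = y then steps ν (KD pt w Kc) k c else 0) = (∑ c, ν c) * walk n w x y := by
  induction hν using Submodule.span_induction with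
  | mem ν hν =>
    obtain ⟨b, hb, r, r1, r2, r3, r4, rfl⟩ := hν
    by_cases h : ∃ φ, b φ ≠ 0
    · obtain ⟨ψ, hψ⟩ := h
      rw [step_gen hs hw hΓ hQ1 hK i r r1 r2 b (Γ ψ) fun φ h => hB b hb φ ψ h hψ]
      obtain ⟨h1, h2⟩ := restrict hs i hB (fun l p v => uni pt p v *
        ∏ o, if l ≤ o ∧ o ≤ i ∧ Γ ψ o = p then ∑ u, r o (Γ ψ o) u * hd pt (th w o l) u v else 1)
        (fun l p => sum_gen hs hw (fun o => l ≤ o ∧ o ≤ i ∧ Γ ψ o = p)
          (fun a b ha hb => hΓ ψ (ha.2.2.trans hb.2.2.symm))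
          (fun o => r o (Γ ψ o)) (fun o => r1 _ _) l p)
        (fun l p v h => uni_ne (left_ne_zero_of_mul h)) y _ (hcone b hb)
      refine ⟨h1, ?_⟩
      rw [h2, hlaw b hb (pt x) (pt y) r4, La_sum hs i r r1, ← walk_eq hs hw x y,
        prod_eq_single i, r4 ψ hψ]
      · simp only [le_rfl, true_and, r3, ite_mul, one_mul, zero_mul, sum_ite_eq', mem_univ,
          if_true, th]
        ring
      · intro o _ ho
        exact if_neg fun h => ho (le_antisymm h.2.1 h.1)
      · simp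
    · have h0 : La pt Γ i r b = 0 := by
        funext d
        exact sum_eq_zero fun φ _ => mul_eq_zero_of_left (by_contra fun h' => h ⟨φ, h'⟩) _
      have h1 : (fun c => if c i = y then steps (La pt Γ i r b) (KD pt w Kc) k c else 0) = 0 := by
        funext c
        rw [steps_linear, h0]
        simp
      refine ⟨h1 ▸ Submodule.zero_mem _, ?_⟩
      simp only [congrFun h1]
      simp [h0]
  | zero =>
    have h1 : (fun c : Fin k → Fin n =>
        if c i = y then steps (0 : (Fin k → Fin n) → ℝ) (KD pt w Kc) k c else 0) = 0 := by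
      funext c
      rw [steps_linear]
      simp
    refine ⟨by rw [h1]; exact Submodule.zero_mem _, ?_⟩
    simp only [congrFun h1]
    simp
  | add a b _ _ ha hb =>
    have h1 : (fun c => if c i = y then steps (a + b) (KD pt w Kc) k c else 0) =
        (fun c => if c i = y then steps a (KD pt w Kc) k c else 0) +
          fun c => if c i = y then steps b (KD pt w Kc) k c else 0 := by
      funext c
      rw [Pi.add_apply, steps_linear (a + b), steps_linear a, steps_linear b]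
      simp only [Pi.add_apply, add_mul, sum_add_distrib]
      split_ifs <;> simp
    refine ⟨h1 ▸ Submodule.add_mem _ ha.1 hb.1, ?_⟩
    simp only [congrFun h1, Pi.add_apply, sum_add_distrib, ha.2, hb.2, add_mul]
  | smul t a _ ha =>
    have h1 : (fun c => if c i = y then steps (t • a) (KD pt w Kc) k c else 0) =
        t • fun c => if c i = y then steps a (KD pt w Kc) k c else 0 := by
      funext c
      rw [Pi.smul_apply, steps_linear (t • a), steps_linear a]
      simp only [Pi.smul_apply, smul_eq_mul, mul_assoc, ← mul_sum]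
      split_ifs <;> simp
    refine ⟨h1 ▸ Submodule.smul_mem _ _ ha.1, ?_⟩
    simp only [congrFun h1, Pi.smul_apply, smul_eq_mul, ← mul_sum, ha.2, mul_assoc]

omit [NeZero k] in
theorem avoid_d (hΓ : ∀ φ, Function.Injective (Γ φ)) (hQ : ∀ φ φ', 0 ≤ Q φ φ')
    (hK : ∀ φ (J : Fin k) g γ, (∀ l, l < J → γ l = g l) → (∀ l, J ≤ l → γ l = Γ φ l) →
      NN Γ Q φ J g * Kc J γ (g J) = NN Γ Q φ (J + 1) g)
    (hav : ∀ φ φ' j l, Q φ φ' ≠ 0 → j < l → Γ φ l = Γ φ' j → 2 ≤ sz pt (Γ φ' j))
    (j : Fin k) (c : Fin k → Fin n) (v : Fin n) (φ φ' : Φ) (h0 : Q φ φ' ≠ 0)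
    (h1 : ∀ l, l < j → pt (c l) = Γ φ' l) (h2 : ∀ l, j ≤ l → pt (c l) = Γ φ l)
    (h3 : Function.Injective c) (h : KD pt w Kc j c v ≠ 0) :
    ∃ ψ, Q φ ψ ≠ 0 ∧ (∀ l, l ≤ j → pt (Function.update c j v l) = Γ ψ l) ∧
      (∀ l, j < l → pt (Function.update c j v l) = Γ φ l) ∧
      Function.Injective (Function.update c j v) := by
  rw [KD, if_pos fun a b ha hb hab => hΓ φ (by rw [← h2 a ha, ← h2 b hb, hab])] at h
  have e1 := hK φ j (fun l => pt (Function.update c j v l)) (fun l => pt (c l))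
    (fun l hl => by rw [Function.update_of_ne hl.ne]) h2
  have e2 : NN Γ Q φ j (fun l => pt (Function.update c j v l)) ≠ 0 := by
    refine (lt_of_lt_of_le (lt_of_le_of_ne (hQ _ _) h0.symm) ?_).ne'
    refine le_trans (le_of_eq (if_pos fun l hl => ?_).symm) (single_le_sum (f := fun φ' =>
      if ∀ l : Fin k, (l : ℕ) < j → Γ φ' l = pt (Function.update c j v l) then Q φ φ' else 0)
      (fun ψ _ => ?_) (mem_univ φ'))
    · rw [Function.update_of_ne (Fin.ne_of_lt hl), h1 l hl]
    · split_ifs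
      · exact hQ _ _
      · exact le_rfl
  simp only [Function.update_self] at e1
  have e3 := e1 ▸ mul_ne_zero e2 (left_ne_zero_of_mul h)
  obtain ⟨ψ, -, hψ⟩ := exists_ne_zero_of_sum_ne_zero e3
  have h4 : ∀ l : Fin k, (l : ℕ) < j + 1 → Γ ψ l = pt (Function.update c j v l) := by
    by_contra h5
    exact hψ (if_neg h5)
  rw [if_pos h4] at hψ
  have h5 : Γ ψ j = pt v := by rw [h4 j (Nat.lt_succ_self _), Function.update_self]
  have h6 : ∀ l, l ≠ j → c l ≠ v := fun l hl hv => by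
    rcases lt_or_gt_of_ne hl with h7 | h7
    · refine hl (hΓ ψ ?_)
      rw [h4 l (Nat.lt_succ_of_lt h7), Function.update_of_ne hl, hv, h5]
    · have h8 := hav φ ψ j l hψ h7 (by rw [← h2 l h7.le, hv, h5])
      refine right_ne_zero_of_mul (right_ne_zero_of_mul h) (prod_eq_zero (mem_univ l) ?_)
      rw [if_pos ⟨h7.le, congrArg pt hv⟩, hv, hd, if_pos (h5 ▸ h8)]
      simp [hh, th, hl]
  refine ⟨ψ, hψ, fun l hl => (h4 l (Nat.lt_succ_of_le hl)).symm, fun l hl => ?_,
    fun a b hab => ?_⟩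
  · rw [Function.update_of_ne hl.ne', h2 l hl.le]
  · by_cases ha : a = j <;> by_cases hb : b = j
    · rw [ha, hb]
    · rw [ha, Function.update_self, Function.update_of_ne hb] at hab
      exact absurd hab.symm (h6 b hb)
    · rw [hb, Function.update_self, Function.update_of_ne ha] at hab
      exact absurd hab (h6 a ha)
    · rw [Function.update_of_ne ha, Function.update_of_ne hb] at hab
      exact h3 hab

theorem lift [Fintype P] (hs : ∀ p, 1 ≤ sz pt p) (hw : 0 ≤ w)
    (hΓ : ∀ φ, Function.Injective (Γ φ)) (hQ : ∀ φ φ', 0 ≤ Q φ φ') (hQ1 : ∀ φ, ∑ φ', Q φ φ' = 1)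
    (hC : ∀ (J : Fin k) φ₁ φ₂ g, (∀ l, J ≤ l → Γ φ₁ l = Γ φ₂ l) →
      NN Γ Q φ₁ (J + 1) g * NN Γ Q φ₂ J g = NN Γ Q φ₂ (J + 1) g * NN Γ Q φ₁ J g)
    (hav : ∀ φ φ' j l, Q φ φ' ≠ 0 → j < l → Γ φ l = Γ φ' j → 2 ≤ sz pt (Γ φ' j))
    (B : Fin k → Set (Φ → ℝ))
    (hB : ∀ i, ∀ b ∈ B i, ∀ φ ψ, b φ ≠ 0 → b ψ ≠ 0 → ∀ l, l ≤ i → Γ φ l = Γ ψ l)
    (hcone : ∀ i, ∀ b ∈ B i, (fun φ' => ∑ φ, b φ * Q φ φ') ∈ Submodule.span ℝ (B i))
    (hlaw : ∀ i, ∀ b ∈ B i, ∀ p p', (∀ φ, b φ ≠ 0 → Γ φ i = p) →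
      ∑ φ', (if Γ φ' i = p' then ∑ φ, b φ * Q φ φ' else 0) = (∑ φ, b φ) * FF pt w p p')
    (φ₀ : Φ) (h0 : ∀ i, (fun φ => if φ = φ₀ then (1 : ℝ) else 0) ∈ B i) :
    ∃ (μ : (Fin k → Fin n) → ℝ) (K : Fin k → (Fin k → Fin n) → Fin n → ℝ), IsMAC w μ K := by
  obtain ⟨Kc, k1, k2, hK⟩ := exists_ker hQ hC
  have hk := Nat.pos_of_ne_zero (NeZero.ne k)
  have hex : ∀ φ, ∃ ψ, Q φ ψ ≠ 0 := fun φ => by
    obtain ⟨ψ, -, h⟩ := exists_ne_zero_of_sum_ne_zero (hQ1 φ ▸ one_ne_zero : ∑ ψ, Q φ ψ ≠ 0)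
    exact ⟨ψ, h⟩
  refine ⟨fun c => ∏ l, uni pt (Γ φ₀ l) (c l), KD pt w Kc,
    fun c => prod_nonneg fun _ _ => uni_nonneg _ _, ?_, fun j c v => ?_, fun j c => ?_,
    avoid_of_inv _ _ (fun t c => ∃ φ φ', Q φ φ' ≠ 0 ∧
      (∀ l, l < Fin.ofNat k t → pt (c l) = Γ φ' l) ∧
      (∀ l, Fin.ofNat k t ≤ l → pt (c l) = Γ φ l) ∧ Function.Injective c) (fun c hc => ?_)
      (fun t c v h hv => ?_) (fun t c ⟨_, _, h⟩ => h.2.2.2),
    fun i => faithful_of_inv _ _ w i
      (fun x ν M => ν ∈ Submodule.span ℝ (Gen pt Γ (B i) i x) ∧ ∑ c, ν c = M) (fun x => ?_)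
      (fun x ν M y h => h.2 ▸ faith_step hs hw hΓ hQ1 hK i (hB i) (hcone i) (hlaw i) x y ν h.1)
      fun _ _ _ h => h.2⟩
  · rw [← Fintype.piFinset_univ, ← prod_univ_sum]
    simp only [sum_un hs, prod_const_one]
  · unfold KD
    split_ifs
    · exact mul_nonneg (k1 _ _ _) (rd_nonneg hw _ _ _ _ _)
    · exact zero_le_one
    · exact le_rfl
  · unfold KD
    split_ifs with h
    · rw [← k2 j fun l => pt (c l), ← sum_fiberwise univ pt]
      refine sum_congr rfl fun p _ => ?_
      rw [← mul_one (Kc j _ p), ← sum_rd hs hw j c (fun l => pt (c l)) h p, mul_sum, sum_filter]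
      refine sum_congr rfl fun v _ => ?_
      split_ifs with h1
      · rw [h1]
      · rw [rd, uni, if_neg h1, zero_mul, mul_zero]
    · simp
  · have h1 : ∀ l, pt (c l) = Γ φ₀ l := fun l => uni_ne (prod_ne_zero_iff.1 hc l (mem_univ l))
    obtain ⟨ψ, hψ⟩ := hex φ₀
    exact ⟨φ₀, ψ, hψ, fun l hl => absurd (show (l : ℕ) < 0 % k from hl) (by simp),
      fun l _ => h1 l, fun a b hab => hΓ φ₀ (by rw [← h1, ← h1, hab])⟩
  · obtain ⟨φ, φ', h0, h1, h2, h3⟩ := h
    obtain ⟨ψ, h4, h5, h6, h7⟩ := avoid_d hΓ hQ hK hav _ c v φ φ' h0 h1 h2 h3 hv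
    have h8 := Nat.mod_lt t hk
    have h9 : (t + 1) % k = (t % k + 1) % k := (Nat.mod_add_mod t k 1).symm
    by_cases h10 : t % k + 1 < k
    · rw [Nat.mod_eq_of_lt h10] at h9
      exact ⟨φ, ψ, h4, fun l hl => h5 l (show (l : ℕ) ≤ t % k by
          have : (l : ℕ) < (t + 1) % k := hl
          omega), fun l hl => h6 l (show t % k < l by
          have : (t + 1) % k ≤ l := hl
          omega), h7⟩
    · have h11 : ∀ l : Fin k, l ≤ Fin.ofNat k t := fun l => show (l : ℕ) ≤ t % k by omega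
      obtain ⟨χ, hχ⟩ := hex ψ
      refine ⟨ψ, χ, hχ, fun l hl => ?_, fun l _ => h5 l (h11 l), h7⟩
      have h12 : (l : ℕ) < (t + 1) % k := hl
      rw [h9, show t % k + 1 = k by omega, Nat.mod_self] at h12
      omega
  · have h := (restrict hs i (hB i) (fun _ p => uni pt p) (fun _ => sum_un hs)
      (fun _ _ _ => uni_ne) x _ (Submodule.subset_span (h0 i))).1
    refine ⟨?_, (sum_filter _ _).symm⟩
    convert h using 3 with c
    simp [La]

end Pool.Agent.MP_1dd261_pr.Odd
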