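import Pool.Agent.MP_1dd261_pr.Odd.B

/-! Frames made of a row and a bit that tells if the user of the row sits at the single vertex. -/

namespace Pool.Agent.MP_1dd261_pr.Odd

open Finset
open scoped Classical

variable {k : ℕ} {R Row : Type} (part : Row → Fin k → R) (U : Row → Option (Fin k))
  (q : Row × Bool → Row → ℝ) (ζ : Row × Bool → Fin k → ℝ)

/-- The parts of the walkers in a frame; `none` is the single vertex. -/
noncomputable def GZ (φ : Row × Bool) (j : Fin k) : Option R :=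
  if U φ.1 = some j ∧ φ.2 = true then none else some (part φ.1 j)

/-- The chain of frames. -/
noncomputable def QZ (φ φ' : Row × Bool) : ℝ :=
  q φ φ'.1 * if φ'.2 = true then (U φ'.1).elim 0 (ζ φ) else 1 - (U φ'.1).elim 0 (ζ φ)

/-- The law of the new part of walker `l` when the new row is `ρ`. -/
noncomputable def SZ (z : ℝ) (ρ : Row) (l : Fin k) (x : Option R) : ℝ :=
  if U ρ = some l then (if x = none then z else if x = some (part ρ l) then 1 - z else 0)
  else if x = some (part ρ l) then 1 else 0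

variable {part U q ζ}

theorem sum_bit (φ : Row × Bool) (ρ : Row) (A : Fin k → Prop) [DecidablePred A]
    (g : Fin k → Option R) :
    ∑ β, (if ∀ l, A l → GZ part U (ρ, β) l = g l then QZ U q ζ φ (ρ, β) else 0) =
      q φ ρ * ∏ l, if A l then SZ part U (ζ φ l) ρ l (g l) else 1 := by
  have e1 : ∀ β, (if ∀ l, A l → GZ part U (ρ, β) l = g l then QZ U q ζ φ (ρ, β) else 0) =
      q φ ρ * (∏ l, if A l ∧ U ρ ≠ some l then (if g l = some (part ρ l) then 1 else 0) else 1) *
        ((if β = true then (U ρ).elim 0 (ζ φ) else 1 - (U ρ).elim 0 (ζ φ)) *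
          ∏ l, if A l ∧ U ρ = some l then (if GZ part U (ρ, β) l = g l then 1 else 0) else 1) :=
    fun β => by
      rw [mul_mul_mul_comm, ← prod_mul_distrib]
      split_ifs with h h' h'
      all_goals
        first
        | (rw [prod_eq_one, mul_one, QZ]
           · simp [h']
           · intro l _
             by_cases h1 : A l
             · have h2 := h l h1
               by_cases h3 : U ρ = some l
               · simp [h1, h3, h2]
               · rw [GZ, if_neg fun h => h3 h.1] at h2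
                 simp [h1, h3, ← h2]
             · simp [h1])
        | (obtain ⟨l, hl⟩ := not_forall.1 h
           obtain ⟨h1, h2⟩ := Classical.not_imp.1 hl
           rw [prod_eq_zero (mem_univ l), mul_zero]
           by_cases h3 : U ρ = some l
           · simp [h1, h3, h2]
           · rw [GZ, if_neg fun h => h3 h.1] at h2
             simp [h1, h3, Ne.symm h2])
  simp only [e1, ← mul_sum]
  rw [one_wit (fun l => A l ∧ U ρ = some l)
    (fun a b ha hb => Option.some.inj (ha.2.symm.trans hb.2)) _ (by simp), mul_assoc,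
    ← prod_mul_distrib]
  congr 1
  refine prod_congr rfl fun l _ => ?_
  by_cases h1 : A l
  · by_cases h3 : U ρ = some l
    · simp only [h1, h3, SZ, GZ, ne_eq, not_true_eq_false, and_false, if_false, one_mul, and_self,
        if_true, Fintype.sum_bool, true_and, Option.elim_some, Bool.false_eq_true]
      rcases g l with _ | x
      · simp
      · simp [eq_comm]
    · simp [h1, h3, SZ]
  · simp [h1]

variable [Fintype Row]

theorem NN_z (φ : Row × Bool) (j : ℕ) (g : Fin k → Option R) :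
    NN (GZ part U) (QZ U q ζ) φ j g =
      ∑ ρ, q φ ρ * ∏ l : Fin k, if (l : ℕ) < j then SZ part U (ζ φ l) ρ l (g l) else 1 := by
  rw [NN, Fintype.sum_prod_type]
  refine sum_congr rfl fun ρ _ => ?_
  convert sum_bit φ ρ (fun l => (l : ℕ) < j) g

theorem prod_succ (J : Fin k) (f : Fin k → ℝ) :
    (∏ l : Fin k, if (l : ℕ) < J + 1 then f l else 1) =
      (∏ l : Fin k, if (l : ℕ) < J then f l else 1) * f J := by
  rw [← mul_prod_erase univ _ (mem_univ J), ← mul_prod_erase univ _ (mem_univ J),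
    if_pos (Nat.lt_succ_self _), if_neg (lt_irrefl _), one_mul, mul_comm]
  congr 1
  refine prod_congr rfl fun l hl => ?_
  have h5 : (l : ℕ) ≠ J := fun h => ne_of_mem_erase hl (Fin.ext h)
  exact if_congr (by omega) rfl rfl

omit [Fintype Row] in
theorem SZ_ne {Ps : Fin k → R} (hP : ∀ ρ j, U ρ = some j → part ρ j = Ps j) {z : ℝ} {ρ : Row}
    {l : Fin k} {x : Option R} (h : SZ part U z ρ l x ≠ 0) : part ρ l = x.getD (Ps l) := by
  unfold SZ at h
  split_ifs at h with h1 h2 h3 h4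
  · rw [h2, hP ρ l h1, Option.getD_none]
  · rw [h3, Option.getD_some]
  · exact absurd rfl h
  · rw [h4, Option.getD_some]
  · exact absurd rfl h

theorem cons_z {Ps : Fin k → R} (hP : ∀ ρ j, U ρ = some j → part ρ j = Ps j)
    (a b : Fin k) (ha : (a : ℕ) = 0) (hb : (b : ℕ) = 1)
    (hD : ∀ ρ ρ', part ρ a = part ρ' a → part ρ b = part ρ' b → ρ = ρ')
    (hT : ∀ ρ, part ρ a = Ps a → U ρ = some a)
    (hV : ∀ J φ₁ φ₂, (∀ l, J ≤ l → GZ part U φ₁ l = GZ part U φ₂ l) → ζ φ₁ J = ζ φ₂ J)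
    (hV' : ∀ φ₁ φ₂, (∀ l, b ≤ l → GZ part U φ₁ l = GZ part U φ₂ l) → q φ₁ = q φ₂)
    (J : Fin k) (φ₁ φ₂ : Row × Bool) (g : Fin k → Option R)
    (h : ∀ l, J ≤ l → GZ part U φ₁ l = GZ part U φ₂ l) :
    NN (GZ part U) (QZ U q ζ) φ₁ (J + 1) g * NN (GZ part U) (QZ U q ζ) φ₂ J g =
      NN (GZ part U) (QZ U q ζ) φ₂ (J + 1) g * NN (GZ part U) (QZ U q ζ) φ₁ J g := by
  simp only [NN_z, prod_succ, hV J φ₁ φ₂ h]
  by_cases h2 : (J : ℕ) ≤ 1
  · rw [hV' φ₁ φ₂ fun l hl => h l (show (J : ℕ) ≤ l by have : (b : ℕ) ≤ l := hl; omega)]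
    rcases Nat.le_one_iff_eq_zero_or_eq_one.1 h2 with h3 | h3
    · simp only [h3, Nat.not_lt_zero, if_false]
    · have e1 : ∀ f : Fin k → ℝ, (∏ l : Fin k, if (l : ℕ) < J then f l else 1) = f a := fun f => by
        rw [h3, ← zero_add 1, ← ha, prod_succ, ha]
        simp
      obtain ⟨μ, s, hs⟩ : ∃ (μ : ℝ → ℝ) (s : Row → ℝ), ∀ z ρ,
          SZ part U z ρ a (g a) = μ z * s ρ := by
        rcases g a with _ | x
        · exact ⟨fun z => z, fun ρ => if U ρ = some a then 1 else 0, fun z ρ => by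
            unfold SZ
            split_ifs <;> simp_all⟩
        · refine ⟨fun z => if x = Ps a then 1 - z else 1,
            fun ρ => if x = part ρ a then 1 else 0, fun z ρ => ?_⟩
          by_cases h4 : x = part ρ a
          · by_cases h5 : U ρ = some a
            · simp [SZ, h4, h5, hP ρ a h5]
            · have h6 : part ρ a ≠ Ps a := fun h => h5 (hT ρ h)
              simp [SZ, h4, h5, h6]
          · simp [SZ, h4]
      have e2 : ∀ (f : Row → ℝ) z, ∑ ρ, q φ₂ ρ * (μ z * s ρ * f ρ) =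
          μ z * ∑ ρ, q φ₂ ρ * (s ρ * f ρ) := fun f z => by
        rw [mul_sum]
        exact sum_congr rfl fun _ _ => by ring
      have e3 : ∀ z, ∑ ρ, q φ₂ ρ * (μ z * s ρ) = μ z * ∑ ρ, q φ₂ ρ * s ρ := fun z => by
        rw [mul_sum]
        exact sum_congr rfl fun _ _ => by ring
      simp only [e1, hs, e2, e3]
      ring
  · have e1 : ∀ (φ : Row × Bool) ρ,
        (∏ l : Fin k, if (l : ℕ) < J then SZ part U (ζ φ l) ρ l (g l) else 1) ≠ 0 →
        part ρ a = (g a).getD (Ps a) ∧ part ρ b = (g b).getD (Ps b) := fun φ ρ h3 => by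
      have h4 := prod_ne_zero_iff.1 h3 a (mem_univ _)
      have h5 := prod_ne_zero_iff.1 h3 b (mem_univ _)
      rw [if_pos (by omega)] at h4 h5
      exact ⟨SZ_ne hP h4, SZ_ne hP h5⟩
    obtain ⟨s, hs⟩ : ∃ s : ℝ, ∀ (φ : Row × Bool) ρ,
        (∏ l : Fin k, if (l : ℕ) < J then SZ part U (ζ φ l) ρ l (g l) else 1) *
          SZ part U (ζ φ₂ J) ρ J (g J) =
        (∏ l : Fin k, if (l : ℕ) < J then SZ part U (ζ φ l) ρ l (g l) else 1) * s := by
      by_cases h3 : ∃ ρ, part ρ a = (g a).getD (Ps a) ∧ part ρ b = (g b).getD (Ps b)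
      · obtain ⟨σ, h3⟩ := h3
        refine ⟨SZ part U (ζ φ₂ J) σ J (g J), fun φ ρ => ?_⟩
        by_cases h4 : (∏ l : Fin k, if (l : ℕ) < J then SZ part U (ζ φ l) ρ l (g l) else 1) = 0
        · rw [h4, zero_mul, zero_mul]
        · rw [hD ρ σ ((e1 φ ρ h4).1.trans h3.1.symm) ((e1 φ ρ h4).2.trans h3.2.symm)]
      · refine ⟨0, fun φ ρ => ?_⟩
        have h4 : (∏ l : Fin k, if (l : ℕ) < J then SZ part U (ζ φ l) ρ l (g l) else 1) = 0 :=
          by_contra fun h4 => h3 ⟨ρ, e1 φ ρ h4⟩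
        rw [h4, zero_mul, zero_mul]
    simp only [hs, ← mul_assoc, ← sum_mul]
    ring

/-- The law on frames with row `ρ` and bit true with probability `t`. -/
noncomputable def bb (ρ : Row) (t : ℝ) (φ : Row × Bool) : ℝ :=
  if φ.1 = ρ then (if φ.2 = true then t else 1 - t) else 0

/-- What walker `i` may know of the bit in the row `ρ`. -/
def Cd (U : Row → Option (Fin k)) (π : Fin k → ℝ) (i : Fin k) (ρ : Row) (t : ℝ) : Prop :=
  (∃ o, U ρ = some o ∧ i < o ∧ t = π o) ∨ ((∀ o, U ρ = some o → o ≤ i) ∧ (t = 0 ∨ t = 1))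

theorem sum_bb (ρ : Row) (t : ℝ) (f : Row × Bool → ℝ) :
    ∑ φ, bb ρ t φ * f φ = t * f (ρ, true) + (1 - t) * f (ρ, false) := by
  rw [Fintype.sum_prod_type, sum_eq_single ρ]
  · simp [bb]
  · intro σ _ h
    simp [bb, h]
  · simp

theorem mem_span (π : Fin k → ℝ) (i : Fin k) (b : Row × Bool → ℝ)
    (hb : ∀ ρ o, U ρ = some o → i < o → b (ρ, true) = π o * (b (ρ, true) + b (ρ, false))) :
    b ∈ Submodule.span ℝ {b | ∃ ρ t, Cd U π i ρ t ∧ b = bb ρ t} := by
  have e : b = ∑ ρ, (b (ρ, true) • bb ρ 1 + b (ρ, false) • bb ρ 0) := by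
    funext φ
    rw [Finset.sum_apply, sum_eq_single φ.1]
    · obtain ⟨ρ, _ | _⟩ := φ <;> simp [bb]
    · intro σ _ h
      simp [bb, Ne.symm h]
    · simp
  rw [e]
  refine Submodule.sum_mem _ fun ρ _ => ?_
  by_cases h : ∃ o, U ρ = some o ∧ i < o
  · obtain ⟨o, h1, h2⟩ := h
    have e2 : b (ρ, true) • bb ρ 1 + b (ρ, false) • bb ρ 0 =
        (b (ρ, true) + b (ρ, false)) • bb ρ (π o) := by
      have h3 := hb ρ o h1 h2
      funext φ
      simp only [bb, Pi.add_apply, Pi.smul_apply, smul_eq_mul]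
      split_ifs <;> linarith
    rw [e2]
    exact Submodule.smul_mem _ _ (Submodule.subset_span ⟨ρ, _, Or.inl ⟨o, h1, h2, rfl⟩, rfl⟩)
  · have h1 : ∀ o, U ρ = some o → o ≤ i := fun o ho => not_lt.1 fun h2 => h ⟨o, ho, h2⟩
    exact Submodule.add_mem _
      (Submodule.smul_mem _ _ (Submodule.subset_span ⟨ρ, _, Or.inr ⟨h1, Or.inr rfl⟩, rfl⟩))
      (Submodule.smul_mem _ _ (Submodule.subset_span ⟨ρ, _, Or.inr ⟨h1, Or.inl rfl⟩, rfl⟩))

theorem law_z {Ps : Fin k → R} (hP : ∀ ρ j, U ρ = some j → part ρ j = Ps j) (φ : Row × Bool)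
    (i : Fin k) (p : Option R) :
    ∑ φ', (if GZ part U φ' i = p then QZ U q ζ φ φ' else 0) =
      p.elim ((∑ ρ, if U ρ = some i then q φ ρ else 0) * ζ φ i) fun x =>
        (∑ ρ, if part ρ i = x then q φ ρ else 0) -
          if x = Ps i then (∑ ρ, if U ρ = some i then q φ ρ else 0) * ζ φ i else 0 := by
  have e : ∀ ρ, ∑ β, (if GZ part U (ρ, β) i = p then QZ U q ζ φ (ρ, β) else 0) =
      q φ ρ * SZ part U (ζ φ i) ρ i p := fun ρ => by
    have h := sum_bit (part := part) (U := U) (q := q) (ζ := ζ) φ ρ (fun l => l = i) fun _ => p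
    rw [prod_eq_single i (fun l _ hl => if_neg hl) (by simp), if_pos rfl] at h
    simpa using h
  rw [Fintype.sum_prod_type]
  simp only [e]
  rcases p with _ | x
  · rw [Option.elim_none, sum_mul]
    refine sum_congr rfl fun ρ _ => ?_
    unfold SZ
    split_ifs <;> simp_all
  · rw [Option.elim_some, sum_mul]
    split_ifs with h
    · rw [← sum_sub_distrib]
      refine sum_congr rfl fun ρ _ => ?_
      by_cases h1 : U ρ = some i
      · simp [SZ, h1, h, hP ρ i h1, mul_sub]
      · simp [SZ, h1, eq_comm]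
    · rw [sub_zero]
      refine sum_congr rfl fun ρ _ => ?_
      by_cases h1 : U ρ = some i
      · simp [SZ, h1, h, hP ρ i h1, Ne.symm h]
      · simp [SZ, h1, eq_comm]

end Pool.Agent.MP_1dd261_pr.Odd
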