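import Pool.Agent.MP_1dd261_pr.Odd.C

/-! A criterion for couplings on an odd number of vertices. -/

namespace Pool.Agent.MP_1dd261_pr.Odd

open Finset
open scoped Classical

variable {k : ℕ} {R Row : Type} [Fintype Row]

/-- The weight with which walker `j` goes to the single vertex. -/
noncomputable def zm (U : Row → Option (Fin k)) (π : Fin k → ℝ) (w : ℝ) (φ : Row × Bool)
    (j : Fin k) : ℝ :=
  (U φ.1).elim 1 fun o => if o = j then (if φ.2 = true then w else 1)
    else if j < o then (if φ.2 = true then 0 else 1 / (1 - π o)) else 1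

/-- The weight of the rows with user `j`. -/
noncomputable def AA (U : Row → Option (Fin k)) (q : Row × Bool → Row → ℝ) (φ : Row × Bool)
    (j : Fin k) : ℝ := ∑ ρ, if U ρ = some j then q φ ρ else 0

omit [Fintype Row] in
theorem zm_low {U : Row → Option (Fin k)} (π : Fin k → ℝ) (w : ℝ) {φ : Row × Bool} {j : Fin k}
    (h : ∀ o, U φ.1 = some o → o < j) : zm U π w φ j = 1 := by
  unfold zm
  rcases h1 : U φ.1 with _ | o
  · rfl
  · have := h o h1
    rw [Option.elim_some, if_neg this.ne, if_neg (not_lt.2 this.le)]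

omit [Fintype Row] in
theorem zm_nonneg {U : Row → Option (Fin k)} {π : Fin k → ℝ} (hπ : ∀ o, π o < 1) {w : ℝ}
    (hw : 0 ≤ w) (φ : Row × Bool) (j : Fin k) : 0 ≤ zm U π w φ j := by
  unfold zm
  rcases U φ.1 with _ | o
  · exact zero_le_one
  · have := hπ o
    rw [Option.elim_some]
    split_ifs
    · exact hw
    · exact zero_le_one
    · exact le_rfl
    · exact div_nonneg zero_le_one (by linarith)
    · exact zero_le_one

omit [Fintype Row] in
theorem GZ_part {part : Row → Fin k → R} {U : Row → Option (Fin k)} {Ps : Fin k → R}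
    (hP : ∀ ρ j, U ρ = some j → part ρ j = Ps j) (φ : Row × Bool) (j : Fin k) :
    (GZ part U φ j).getD (Ps j) = part φ.1 j := by
  unfold GZ
  split_ifs with h
  · exact (hP _ _ h.1).symm
  · rfl

omit [Fintype Row] in
theorem GZ_vis {part : Row → Fin k → R} {U : Row → Option (Fin k)} {Ps : Fin k → R}
    (hP : ∀ ρ j, U ρ = some j → part ρ j = Ps j) {L : Fin k}
    (hDL : ∀ J, J < L → ∀ ρ ρ', part ρ J = part ρ' J → part ρ L = part ρ' L → ρ = ρ')
    {J : Fin k} (hJ : J < L) {φ₁ φ₂ : Row × Bool}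
    (h : ∀ l, J ≤ l → GZ part U φ₁ l = GZ part U φ₂ l) :
    φ₁ = φ₂ ∨ (φ₁.1 = φ₂.1 ∧ ∀ o, U φ₁.1 = some o → o < J) := by
  have h1 : φ₁.1 = φ₂.1 := hDL J hJ _ _
    (by rw [← GZ_part hP, ← GZ_part hP, h J le_rfl]) (by rw [← GZ_part hP, ← GZ_part hP, h L hJ.le])
  by_cases h2 : φ₁.2 = φ₂.2
  · exact Or.inl (Prod.ext h1 h2)
  · refine Or.inr ⟨h1, fun o ho => not_le.1 fun h3 => h2 ?_⟩
    have h4 := h o h3
    unfold GZ at h4
    rw [← h1] at h4
    simp only [ho, true_and] at h4
    cases h5 : φ₁.2 <;> cases h6 : φ₂.2 <;> simp_all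

omit [Fintype Row] in
theorem bb_det {ρ : Row} {t : ℝ} (h : t = 0 ∨ t = 1) {β γ : Bool} (h1 : bb ρ t (ρ, β) ≠ 0)
    (h2 : bb ρ t (ρ, γ) ≠ 0) : β = γ := by
  rcases h with rfl | rfl <;> cases β <;> cases γ <;> simp_all [bb]

theorem zrow [NeZero k] [Fintype R] (n : ℕ) (hn : n = 2 * Fintype.card R + 1) {w : ℝ} (hw : 0 ≤ w)
    (a b L : Fin k) (ha : (a : ℕ) = 0) (hb : (b : ℕ) = 1) (hL : (L : ℕ) + 1 = k) (hbL : b < L)
    (part : Row → Fin k → R) (U : Row → Option (Fin k)) (Ps : Fin k → R)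
    (q : Row × Bool → Row → ℝ) (π : Fin k → ℝ)
    (hinj : ∀ ρ, Function.Injective (part ρ))
    (hP : ∀ ρ j, U ρ = some j → part ρ j = Ps j)
    (hD : ∀ ρ ρ', part ρ a = part ρ' a → part ρ b = part ρ' b → ρ = ρ')
    (hT : ∀ ρ, part ρ a = Ps a → U ρ = some a)
    (hDL : ∀ J, J < L → ∀ ρ ρ', part ρ J = part ρ' J → part ρ L = part ρ' L → ρ = ρ')
    (hq0 : ∀ φ ρ, 0 ≤ q φ ρ) (hq1 : ∀ φ, ∑ ρ, q φ ρ = w + n - 1)
    (hqβ : ∀ ρ, U ρ ≠ some L → q (ρ, true) = q (ρ, false))
    (hπ : ∀ o, π o < 1) (hz : ∀ φ j, zm U π w φ j ≤ AA U q φ j)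
    (hVL : ∀ φ₁ φ₂, GZ part U φ₁ L = GZ part U φ₂ L →
      zm U π w φ₁ L / AA U q φ₁ L = zm U π w φ₂ L / AA U q φ₂ L)
    (hA1 : ∀ φ o, o ≠ a → U φ.1 ≠ some o → AA U q φ o * π o = 1)
    (hA2 : ∀ ρ ρ' o, o ≠ a → o < L → U ρ = some L → U ρ' = some o →
      q (ρ, true) ρ' = q (ρ, false) ρ')
    (hA3 : ∀ ρ ρ' o, o ≠ a → U ρ = some o → U ρ' = some o →
      π o * (q (ρ, true) ρ' * (w / AA U q (ρ, true) o)) +
        (1 - π o) * (q (ρ, false) ρ' * (1 / AA U q (ρ, false) o)) =
      π o * (π o * q (ρ, true) ρ' + (1 - π o) * q (ρ, false) ρ'))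
    (hLP : ∀ i ρ t x, Cd U π i ρ t →
      t * (∑ ρ', if part ρ' i = x then q (ρ, true) ρ' else 0) +
        (1 - t) * (∑ ρ', if part ρ' i = x then q (ρ, false) ρ' else 0) =
      2 + (if x = Ps i then 1 else 0) + if x = part ρ i then w - 1 else 0)
    (ρ₀ : Row) (h0 : ∀ o, U ρ₀ = some o → o = a) :
    ∃ (μ : (Fin k → Fin n) → ℝ) (K : Fin k → (Fin k → Fin n) → Fin n → ℝ), IsMAC w μ K := by
  obtain ⟨pt, hpt⟩ := exists_pt (n := n) (fun p : Option R => p.elim 1 fun _ => 2)
    (by simp [hn, Fintype.sum_option]; ring)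
  have s1 : sz pt none = 1 := by simp [hpt]
  have s2 : ∀ x, sz pt (some x) = 2 := fun x => by simp [hpt]
  have hR : 0 < Fintype.card R := Fintype.card_pos_iff.2 ⟨Ps a⟩
  have hW : 0 < w + n - 1 := by
    have : (3 : ℝ) ≤ n := by exact_mod_cast (show 3 ≤ n by omega)
    linarith
  have hle : ∀ l : Fin k, l ≤ L := fun l => show (l : ℕ) ≤ L by have := l.2; omega
  set W := w + n - 1 with hWd
  set ζ : Row × Bool → Fin k → ℝ := fun φ j => zm U π w φ j / AA U q φ j with hζ
  set q' : Row × Bool → Row → ℝ := fun φ ρ => q φ ρ / W with hq'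
  have z0 : ∀ φ j, 0 ≤ ζ φ j := fun φ j =>
    div_nonneg (zm_nonneg hπ hw _ _) ((zm_nonneg hπ hw _ _).trans (hz _ _))
  have z1 : ∀ φ j, ζ φ j ≤ 1 := fun φ j =>
    div_le_one_of_le₀ (hz _ _) ((zm_nonneg hπ hw _ _).trans (hz _ _))
  have z2 : ∀ φ j, (∑ ρ, if U ρ = some j then q' φ ρ else 0) * ζ φ j = zm U π w φ j / W :=
    fun φ j => by
      have e : (∑ ρ, if U ρ = some j then q' φ ρ else 0) = AA U q φ j / W := by
        rw [AA, sum_div]
        refine sum_congr rfl fun ρ _ => ?_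
        split_ifs
        · rfl
        · simp
      rw [e]
      by_cases h : AA U q φ j = 0
      · rw [h, le_antisymm (h ▸ hz φ j) (zm_nonneg hπ hw _ _)]
        simp
      · simp only [hζ]
        field_simp
  have z3 : ∀ φ o, o ≠ a → (∀ u, U φ.1 = some u → u < o) → ζ φ o = π o := fun φ o h1 h2 => by
    have h3 := hA1 φ o h1 fun h => lt_irrefl _ (h2 o h)
    simp only [hζ, zm_low π w h2]
    exact (eq_one_div_of_mul_eq_one_right h3).symm
  have hna : ∀ i o : Fin k, i < o → o ≠ a := fun i o h h' => by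
    have : (i : ℕ) < o := h
    rw [h', ha] at this
    omega
  refine lift (pt := pt) (Γ := GZ part U) (Q := QZ U q' ζ) (fun p => ?_) hw (fun φ x y h => ?_)
    (fun φ φ' => ?_) (fun φ => ?_)
    (cons_z hP a b ha hb hD hT (fun J φ₁ φ₂ h => ?_) fun φ₁ φ₂ h => ?_)
    (fun φ φ' j l h1 h2 h3 => ?_) (fun i => {b | ∃ ρ t, Cd U π i ρ t ∧ b = bb ρ t})
    ?_ ?_ ?_ (ρ₀, false) fun i => ⟨ρ₀, 0, Or.inr ⟨fun o ho => ?_, Or.inl rfl⟩, ?_⟩
  · rcases p with _ | x
    · exact s1.ge
    · rw [s2]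
      norm_num
  · unfold GZ at h
    split_ifs at h with h1 h2 h2
    · exact Option.some.inj (h1.1.symm.trans h2.1)
    · exact hinj _ (Option.some.inj h)
  · refine mul_nonneg (div_nonneg (hq0 _ _) hW.le) ?_
    rcases U φ'.1 with _ | o
    · simp only [Option.elim_none]
      split_ifs <;> norm_num
    · simp only [Option.elim_some]
      split_ifs
      · exact z0 _ _
      · linarith [z1 φ o]
  · rw [Fintype.sum_prod_type]
    simp only [QZ, Fintype.sum_bool, if_true, Bool.false_eq_true, if_false, ← mul_add,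
      add_sub_cancel, mul_one, hq', ← sum_div, hq1]
    exact div_self hW.ne'
  · rcases (hle J).eq_or_lt with rfl | hJ
    · exact hVL _ _ (h _ le_rfl)
    · rcases GZ_vis hP hDL hJ h with rfl | ⟨h1, h2⟩
      · rfl
      · obtain ⟨ρ, β⟩ := φ₁
        obtain ⟨ρ', β'⟩ := φ₂
        obtain rfl : ρ = ρ' := h1
        have h3 := hqβ ρ fun h => lt_asymm hJ (h2 L h)
        have h4 : q (ρ, β) = q (ρ, β') := by cases β <;> cases β' <;> simp [h3]
        simp only [hζ, AA, h4]
        rw [zm_low π w h2, zm_low π w (φ := (ρ, β')) h2]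
  · rcases GZ_vis hP hDL hbL h with rfl | ⟨h1, h2⟩
    · rfl
    · obtain ⟨ρ, β⟩ := φ₁
      obtain ⟨ρ', β'⟩ := φ₂
      obtain rfl : ρ = ρ' := h1
      have h3 := hqβ ρ fun h => lt_asymm hbL (h2 L h)
      have h4 : q (ρ, β) = q (ρ, β') := by cases β <;> cases β' <;> simp [h3]
      simp only [hq', h4]
  · by_cases h4 : U φ'.1 = some j ∧ φ'.2 = true
    · exfalso
      rw [GZ, GZ, if_pos h4] at h3
      have h5 : U φ.1 = some l ∧ φ.2 = true := by
        by_contra h5
        rw [if_neg h5] at h3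
        cases h3
      refine h1 ?_
      simp [QZ, h4.1, h4.2, hζ, zm, h5.1, h5.2, h2, h2.ne']
    · rw [GZ, if_neg h4, s2]
  · rintro i _ ⟨ρ, t, h, rfl⟩ ⟨σ, β⟩ ⟨τ, γ⟩ h1 h2 l hl
    obtain rfl : σ = ρ := by_contra fun h => h1 (if_neg h)
    obtain rfl : τ = σ := by_contra fun h => h2 (if_neg h)
    rcases h with ⟨o, h3, h4, -⟩ | ⟨-, h3⟩
    · have h5 : o ≠ l := fun h => absurd h4 (not_lt.2 (h ▸ hl))
      simp [GZ, h3, h5]
    · rw [bb_det h3 h1 h2]
  · rintro i _ ⟨ρ, t, h, rfl⟩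
    refine mem_span π i _ fun ρ' o h1 h2 => ?_
    simp only [sum_bb, QZ, h1, Option.elim_some, if_true, Bool.false_eq_true, if_false]
    suffices h3 : t * (q (ρ, true) ρ' * ζ (ρ, true) o) + (1 - t) * (q (ρ, false) ρ' *
        ζ (ρ, false) o) = π o * (t * q (ρ, true) ρ' + (1 - t) * q (ρ, false) ρ') by
      simp only [hq']
      field_simp
      linear_combination h3
    have ho := hna i o h2
    by_cases h4 : ∀ u, U ρ = some u → u < o
    · rw [z3 (ρ, true) o ho h4, z3 (ρ, false) o ho h4]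
      ring
    · push Not at h4
      obtain ⟨u, h5, h6⟩ := h4
      obtain rfl : t = π u := by
        rcases h with ⟨u', h7, -, h8⟩ | ⟨h7, -⟩
        · rw [h8, Option.some.inj (h7.symm.trans h5)]
        · exact absurd (h2.trans_le (h6.trans (h7 u h5))) (lt_irrefl _)
      rcases h6.eq_or_lt with rfl | h6
      · simpa [hζ, zm, h5] using hA3 ρ ρ' o ho h5 h1
      · have h7 : q (ρ, true) ρ' = q (ρ, false) ρ' := by
          rcases (hle u).eq_or_lt with rfl | h8
          · exact hA2 ρ ρ' o ho h6 h5 h1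
          · rw [hqβ ρ fun h => h8.ne (Option.some.inj (h5.symm.trans h))]
        have h8 := hA1 (ρ, false) o ho fun h => h6.ne' (Option.some.inj (h5.symm.trans h))
        have h9 : 1 - π u ≠ 0 := by linarith [hπ u]
        have h10 : AA U q (ρ, false) o ≠ 0 := left_ne_zero_of_mul_eq_one h8
        simp only [hζ, zm, h5, Option.elim_some, h6, h6.ne', if_true, if_false, h7,
          Bool.false_eq_true]
        field_simp
        linear_combination (-q (ρ, false) ρ') * h8
  · rintro i _ ⟨ρ, t, h, rfl⟩ p p' hp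
    have e1 : ∑ φ, bb ρ t φ = 1 := by simpa using sum_bb ρ t fun _ => 1
    have e2 : ∑ φ', (if GZ part U φ' i = p' then ∑ φ, bb ρ t φ * QZ U q' ζ φ φ' else 0) =
        ∑ φ, bb ρ t φ * ∑ φ', if GZ part U φ' i = p' then QZ U q' ζ φ φ' else 0 := by
      simp only [mul_sum]
      rw [sum_comm]
      refine sum_congr rfl fun φ' _ => ?_
      split_ifs <;> simp
    have e3 : ∀ φ x, (∑ ρ', if part ρ' i = x then q' φ ρ' else 0) =
        (∑ ρ', if part ρ' i = x then q φ ρ' else 0) / W := fun φ x => by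
      rw [sum_div]
      refine sum_congr rfl fun ρ _ => ?_
      split_ifs
      · rfl
      · simp
    have e4 : (p = none ∧ part ρ i = Ps i ∧
          t * zm U π w (ρ, true) i + (1 - t) * zm U π w (ρ, false) i = w) ∨
        (p = some (part ρ i) ∧
          t * zm U π w (ρ, true) i + (1 - t) * zm U π w (ρ, false) i = 1) := by
      rcases h with ⟨o, h3, h4, rfl⟩ | ⟨h3, rfl | rfl⟩
      · have h9 : 1 - π o ≠ 0 := by linarith [hπ o]
        refine Or.inr ⟨?_, ?_⟩
        · rw [← hp (ρ, false) (by simpa [bb] using h9)]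
          simp [GZ]
        · simp [zm, h3, h4, h4.ne', h9]
      · refine Or.inr ⟨?_, ?_⟩
        · rw [← hp (ρ, false) (by simp [bb])]
          simp [GZ]
        · rcases h5 : U ρ with _ | o
          · simp [zm, h5]
          · simp [zm, h5, not_lt.2 (h3 o h5)]
      · by_cases h5 : U ρ = some i
        · refine Or.inl ⟨?_, hP _ _ h5, by simp [zm, h5]⟩
          rw [← hp (ρ, true) (by simp [bb])]
          simp [GZ, h5]
        · refine Or.inr ⟨?_, ?_⟩
          · rw [← hp (ρ, true) (by simp [bb])]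
            simp [GZ, h5]
          · rw [zm_low π w (φ := (ρ, true)) fun o ho =>
              lt_of_le_of_ne (h3 o ho) fun h => h5 (h ▸ ho)]
            ring
    refine Eq.trans (Eq.trans (by congr!) e2) ?_
    rw [e1, sum_bb, law_z hP, law_z hP, one_mul, FF, ← hWd, eq_div_iff hW.ne']
    rcases p' with _ | x
    · simp only [Option.elim_none, z2]
      rcases e4 with ⟨rfl, -, h5⟩ | ⟨rfl, h5⟩
      · rw [if_pos rfl, s1]
        field_simp
        linear_combination h5
      · rw [if_neg (by simp), s1]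
        field_simp
        linear_combination h5
    · have h6 := hLP i ρ t x h
      simp only [Option.elim_some, z2, e3]
      rcases e4 with ⟨rfl, h4, h5⟩ | ⟨rfl, h5⟩
      · rw [if_neg (show ¬ some x = none by simp), s2]
        rw [h4] at h6
        split_ifs at h6 ⊢
        · field_simp
          linear_combination h6 - h5
        · field_simp
          linear_combination h6
      · simp only [s2, Option.some.injEq]
        split_ifs at h6 ⊢
        · field_simp
          linear_combination h6 - h5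
        · field_simp
          linear_combination h6 - h5
        · field_simp
          linear_combination h6
        · field_simp
          linear_combination h6
  · rw [h0 o ho]
    exact show (a : ℕ) ≤ i by omega
  · funext ⟨σ, β⟩
    by_cases h : σ = ρ₀ <;> cases β <;> simp [bb, h]

end Pool.Agent.MP_1dd261_pr.Odd
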