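import Pool.Agent.MP_1dd261_pr.Odd.D

/-! The design with one row of weight one; it needs `w ≤ 2`. -/

namespace Pool.Agent.MP_1dd261_pr.Odd

open Finset
open scoped Classical

variable {k : ℕ} {R : Type}

/-- The weights of the new row. -/
noncomputable def q6 (w : ℝ) (s : R) (φ : Option R × Bool) (ρ : Option R) : ℝ :=
  (if ρ = none then 1 else 2) + (if ρ = φ.1 then w - 1 else 0) +
    if φ.1 = some s then (if φ.2 = true then w - 1 else 1 - w) *
      ((if ρ = some s then 1 else 0) - if ρ = none then 1 else 0) else 0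

theorem q6_nonneg {w : ℝ} (hw : 0 ≤ w) (hw2 : w ≤ 2) (s : R) (φ : Option R × Bool)
    (ρ : Option R) : 0 ≤ q6 w s φ ρ := by
  unfold q6
  by_cases h : φ.1 = some s
  · rw [if_pos h, h]
    rcases ρ with _ | r
    · simp only [reduceCtorEq, if_true, if_false]
      split_ifs <;> linarith
    · simp only [reduceCtorEq, if_false]
      split_ifs <;> linarith
  · rw [if_neg h]
    split_ifs <;> linarith

theorem zm_le {Row : Type} {U : Row → Option (Fin k)} {π : Fin k → ℝ} (hπ : ∀ o, π o ≤ 1 / 2)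
    (w : ℝ) {φ : Row × Bool} {j : Fin k} (h : U φ.1 ≠ some j) : zm U π w φ j ≤ 2 := by
  unfold zm
  rcases h1 : U φ.1 with _ | o
  · simp
  · have h2 : o ≠ j := fun h2 => h (h2 ▸ h1)
    have h3 := hπ o
    rw [Option.elim_some, if_neg h2]
    split_ifs
    · norm_num
    · rw [div_le_iff₀ (by linarith)]
      linarith
    · norm_num

theorem zm_self {Row : Type} {U : Row → Option (Fin k)} (π : Fin k → ℝ) (w : ℝ) {φ : Row × Bool}
    {j : Fin k} (h : U φ.1 = some j) : zm U π w φ j = if φ.2 = true then w else 1 := by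
  simp [zm, h]

theorem design6 [NeZero k] [Fintype R] (n : ℕ) (hn : n = 2 * Fintype.card R + 1) {w : ℝ}
    (hw : 0 ≤ w) (hw2 : w ≤ 2) (hk : 3 ≤ k) (M : Fin k → R → R) (e : Fin k → R)
    (m1 : ∀ j, Function.Injective (M j)) (m2 : ∀ r i j, M i r = M j r → i = j)
    (m3 : Function.Injective e) (m4 : ∀ i j, M i (e i) = M j (e j) → i = j) :
    ∃ (μ : (Fin k → Fin n) → ℝ) (K : Fin k → (Fin k → Fin n) → Fin n → ℝ), IsMAC w μ K := by
  obtain ⟨a, ha⟩ : ∃ a : Fin k, (a : ℕ) = 0 := ⟨⟨0, by omega⟩, rfl⟩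
  obtain ⟨b, hb⟩ : ∃ b : Fin k, (b : ℕ) = 1 := ⟨⟨1, by omega⟩, rfl⟩
  obtain ⟨L, hL⟩ : ∃ L : Fin k, (L : ℕ) + 1 = k := ⟨⟨k - 1, by omega⟩, by simp only; omega⟩
  have hab : a ≠ b := fun h => by rw [h] at ha; omega
  have hLa : L ≠ a := fun h => by rw [h] at hL; omega
  have hle : ∀ l : Fin k, l ≤ L := fun l => show (l : ℕ) ≤ L by have := l.2; omega
  obtain ⟨U, hU⟩ : ∃ U : Option R → Option (Fin k),
      ∀ ρ j, U ρ = some j ↔ (ρ = none ∧ j = a) ∨ ρ = some (e j) := by
    refine ⟨fun ρ => ρ.elim (some a) fun r => if h : ∃ j, e j = r then some h.choose else none,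
      fun ρ j => ?_⟩
    rcases ρ with _ | r
    · simp [eq_comm]
    · simp only [Option.elim_some, reduceCtorEq, false_and, Option.some.injEq, false_or]
      split_ifs with h
      · rw [Option.some.injEq]
        exact ⟨fun h' => h' ▸ h.choose_spec.symm, fun h' => m3 (h.choose_spec.trans h')⟩
      · exact ⟨fun h' => (by cases h'), fun h' : r = e j => absurd ⟨j, h'.symm⟩ h⟩
  have hU' : ∀ ρ j, j ≠ a → (U ρ = some j ↔ ρ = some (e j)) := fun ρ j h => by simp [hU, h]
  have dec : ∀ i j, i ≠ j → ∀ ρ ρ' : Option R, M i (ρ.getD (e i)) = M i (ρ'.getD (e i)) →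
      M j (ρ.getD (e j)) = M j (ρ'.getD (e j)) → ρ = ρ' := fun i j hij ρ ρ' h1 h2 => by
    have h3 := m1 i h1
    have h4 := m1 j h2
    rcases ρ with _ | r <;> rcases ρ' with _ | r' <;>
      simp only [Option.getD_none, Option.getD_some] at h3 h4
    · rfl
    · exact absurd (m3 (h3.trans h4.symm)) hij
    · exact absurd (m3 (h3.symm.trans h4)) hij
    · rw [h3]
  have A1 : ∀ φ j, j ≠ a → AA U (q6 w (e L)) φ j = q6 w (e L) φ (some (e j)) := fun φ j h => by
    simp [AA, hU' _ j h]
  have A2 : ∀ φ, AA U (q6 w (e L)) φ a = q6 w (e L) φ none + q6 w (e L) φ (some (e a)) :=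
    fun φ => by simp [AA, hU, Fintype.sum_option]
  have A3 : ∀ φ j, j ≠ a → U φ.1 ≠ some j → AA U (q6 w (e L)) φ j = 2 := fun φ j h h' => by
    have h1 : some (e j) ≠ φ.1 := fun h1 => h' ((hU' _ j h).2 h1.symm)
    rw [A1 φ j h, q6, if_neg h1]
    by_cases h2 : φ.1 = some (e L)
    · rw [if_pos h2, if_neg (show ¬ some (e j) = some (e L) from h2 ▸ h1)]
      simp
    · simp [h2]
  refine zrow n hn hw a b L ha hb hL (show (b : ℕ) < L by omega)
    (fun ρ j => M j (ρ.getD (e j))) U (fun j => M j (e j)) (q6 w (e L)) (fun _ => 1 / 2)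
    (fun ρ i j h => ?_) (fun ρ j h => ?_) (dec a b hab) (fun ρ h => ?_)
    (fun J hJ => dec J L hJ.ne) (fun φ ρ => ?_) (fun φ => ?_) (fun ρ h => ?_)
    (fun _ => by norm_num) (fun φ j => ?_) (fun φ₁ φ₂ h => ?_)
    (fun φ o h1 h2 => by rw [A3 φ o h1 h2]; norm_num) (fun ρ ρ' o h1 h2 h3 h4 => ?_)
    (fun ρ ρ' o h1 h2 h3 => ?_) (fun i ρ t x h => ?_) none
    fun o h => by simpa [hU] using h
  · rcases ρ with _ | r
    · exact m4 i j h
    · exact m2 r i j h
  · rcases (hU ρ j).1 h with ⟨rfl, -⟩ | rfl <;> rfl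
  · have h1 := m1 a h
    rcases ρ with _ | r
    · simp [hU]
    · exact (hU _ _).2 (Or.inr (congrArg some h1))
  · exact q6_nonneg hw hw2 _ _ _
  · have e1 : ∑ ρ : Option R, (if ρ = none then (1 : ℝ) else 2) = n := by
      simp [Fintype.sum_option, hn]
      ring
    simp only [q6, sum_add_distrib, e1, sum_ite_eq', mem_univ, if_true]
    split_ifs <;> simp [← mul_sum, sum_sub_distrib] <;> ring
  · have h1 : ρ ≠ some (e L) := fun h1 => h ((hU' _ L hLa).2 h1)
    funext ρ'
    simp [q6, h1]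
  · by_cases h : U φ.1 = some j
    · rw [zm_self _ w h]
      by_cases hj : j = a
      · subst hj
        have h1 : some (e j) ≠ some (e L) := fun h1 => hLa (m3 (Option.some.inj h1)).symm
        rw [A2]
        rcases (hU _ _).1 h with ⟨h2, -⟩ | h2
        · simp only [q6, h2, reduceCtorEq, if_true, if_false]
          split_ifs <;> linarith
        · simp only [q6, h2, h1, reduceCtorEq, if_true, if_false]
          split_ifs <;> linarith
      · rw [A1 φ j hj]
        simp only [q6, (hU' _ j hj).1 h, reduceCtorEq, if_true, if_false]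
        split_ifs <;> linarith
    · refine (zm_le (fun _ => le_rfl) w h).trans ?_
      by_cases hj : j = a
      · subst hj
        have h1 : some (e j) ≠ some (e L) := fun h1 => hLa (m3 (Option.some.inj h1)).symm
        have h2 : none ≠ φ.1 := fun h2 => h ((hU _ _).2 (Or.inl ⟨h2.symm, rfl⟩))
        have h3 : some (e j) ≠ φ.1 := fun h3 => h ((hU _ _).2 (Or.inr h3.symm))
        rw [A2]
        simp only [q6, h1, h2, h3, reduceCtorEq, if_true, if_false]
        split_ifs <;> linarith
      · rw [A3 φ j hj h]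
  · have e1 : ∀ φ : Option R × Bool, ¬ (U φ.1 = some L ∧ φ.2 = true) →
        zm U (fun _ => 1 / 2) w φ L / AA U (q6 w (e L)) φ L = 1 / 2 := fun φ h1 => by
      by_cases h2 : U φ.1 = some L
      · have h3 : ¬ φ.2 = true := fun h3 => h1 ⟨h2, h3⟩
        rw [zm_self _ w h2, A1 φ L hLa]
        simp only [q6, (hU' _ L hLa).1 h2, h3, reduceCtorEq, if_true, if_false]
        ring
      · rw [A3 φ L hLa h2, zm_low _ w fun o ho => lt_of_le_of_ne (hle o) fun h3 => h2 (h3 ▸ ho)]
    unfold GZ at h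
    split_ifs at h with h1 h2 h2
    · rw [show φ₁ = φ₂ from Prod.ext (((hU' _ L hLa).1 h1.1).trans ((hU' _ L hLa).1 h2.1).symm)
        (h1.2.trans h2.2.symm)]
    · rw [e1 φ₁ h1, e1 φ₂ h2]
  · have h5 : e o ≠ e L := fun h => h2.ne (m3 h)
    simp [q6, (hU' _ o h1).1 h4, h5]
  · rw [A1 _ o h1, A1 _ o h1, (hU' _ o h1).1 h2, (hU' _ o h1).1 h3]
    by_cases h4 : e o = e L
    · simp only [q6, h4, reduceCtorEq, if_true, if_false, Bool.false_eq_true]
      rcases hw.eq_or_lt with rfl | h5
      · norm_num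
      · have h6 : 2 + (w - 1) + (w - 1) * (1 - 0) = 2 * w := by ring
        have h7 : 2 + (w - 1) + (1 - w) * (1 - 0) = 2 := by ring
        rw [h6, h7]
        field_simp
    · simp only [q6, h4, reduceCtorEq, if_true, if_false, Option.some.injEq]
      have h6 : 2 + (w - 1) + 0 ≠ 0 := by linarith
      field_simp
      ring
  · obtain ⟨r, rfl⟩ := (Finite.injective_iff_surjective.1 (m1 i)) x
    have e1 : ∀ φ, (∑ ρ' : Option R, if M i (ρ'.getD (e i)) = M i r then q6 w (e L) φ ρ' else 0) =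
        (if r = e i then q6 w (e L) φ none else 0) + q6 w (e L) φ (some r) := fun φ => by
      simp [Fintype.sum_option, (m1 i).eq_iff, eq_comm (a := e i)]
    rw [e1, e1]
    simp only [(m1 i).eq_iff]
    rcases ρ with _ | s
    · simp only [q6, reduceCtorEq, if_true, if_false, Option.getD_none]
      split_ifs <;> ring
    · simp only [q6, reduceCtorEq, if_true, if_false, Option.getD_some, Option.some.injEq,
        Bool.false_eq_true]
      by_cases h1 : s = e L
      · subst h1
        have h2 := (hU' (some (e L)) L hLa).2 rfl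
        rcases h with ⟨o, -, -, rfl⟩ | ⟨h3, -⟩
        · simp only [if_true]
          split_ifs <;> ring
        · rw [le_antisymm (hle i) (h3 L h2)]
          simp only [if_true]
          split_ifs <;> ring
      · simp only [h1, if_false]
        split_ifs <;> ring

end Pool.Agent.MP_1dd261_pr.Odd
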