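import Pool.Agent.MP_1dd261_pr.Odd.E

/-! The design with three rows of weight one; it works for every `w`. -/

namespace Pool.Agent.MP_1dd261_pr.Odd

open Finset
open scoped Classical

variable {k : ℕ} {R : Type}

/-- The line of the Latin rectangle that walker `j` uses in a row. -/
noncomputable def ri (a L : Fin k) (e : Fin k → R) (s : R) : R ⊕ Bool → Fin k → R
  | .inl r, j => if r = s ∧ j ≠ a ∧ j ≠ L then e j else r
  | .inr false, j => if j = a then e j else s
  | .inr true, j => if j = L then e j else s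

/-- The weights of the rows. -/
noncomputable def om (s : R) : R ⊕ Bool → ℝ
  | .inl r => if r = s then 1 else 2
  | .inr _ => 1

theorem sum_q5 {Row : Type} [Fintype Row] [DecidableEq Row] (ω : Row → ℝ) (w : ℝ) (σ : Row)
    (A : Row → Prop) [DecidablePred A] : ∑ ρ, (if A ρ then ω ρ + (if ρ = σ then w - 1 else 0) else 0) =
      (∑ ρ, if A ρ then ω ρ else 0) + if A σ then w - 1 else 0 := by
  have e : ∀ ρ, (if A ρ then ω ρ + (if ρ = σ then w - 1 else 0) else 0) =
      (if A ρ then ω ρ else 0) + if ρ = σ then (if A σ then w - 1 else 0) else 0 := fun ρ => by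
    by_cases h : ρ = σ
    · subst h
      split_ifs <;> simp
    · simp [h]
  simp [e, sum_add_distrib]

theorem sum_ri [Fintype R] {a L : Fin k} (h : L ≠ a) {e : Fin k → R} {s : R} (he : ∀ j, e j ≠ s)
    (i : Fin k) (r : R) :
    ∑ ρ, (if ri a L e s ρ i = r then om s ρ else 0) = 2 + if r = e i then 1 else 0 := by
  have h1 := he i
  have e1 : ∑ x, (if ri a L e s (.inl x) i = r then om s (.inl x) else 0) =
      (if r = s then 0 else 2) + if ri a L e s (.inl s) i = r then 1 else 0 := by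
    rw [← add_sum_erase _ _ (mem_univ s), add_comm]
    congr 1
    · rw [sum_congr rfl (g := fun x => if x = r then 2 else 0) fun x hx => by
        simp [ri, om, ne_of_mem_erase hx]]
      simp
    · simp [om]
  rw [Fintype.sum_sum_type, e1, Fintype.sum_bool]
  simp only [ri, om, true_and]
  by_cases h2 : r = s
  · subst h2
    by_cases h3 : i = a
    · subst h3
      simp [h.symm, h1, h1.symm]
      norm_num
    · by_cases h4 : i = L
      · subst h4
        simp [h, h1, h1.symm]
        norm_num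
      · simp [h3, h4, h1, h1.symm]
        norm_num
  · by_cases h3 : i = a
    · subst h3
      simp [h.symm, h2, Ne.symm h2, eq_comm (a := r)]
    · by_cases h4 : i = L
      · subst h4
        simp [h, h2, Ne.symm h2, eq_comm (a := r)]
      · simp [h3, h4, h2, Ne.symm h2, eq_comm (a := r)]

theorem ri_dec {a L : Fin k} (h : L ≠ a) {e : Fin k → R} {s : R} (he : ∀ j, e j ≠ s)
    (m3 : Function.Injective e) {i j : Fin k} (hij : i ≠ j) (h1 : i = a ∨ i = L)
    {ρ ρ' : R ⊕ Bool} (h2 : ri a L e s ρ i = ri a L e s ρ' i)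
    (h3 : ri a L e s ρ j = ri a L e s ρ' j) : ρ = ρ' := by
  have a1 := he i
  have a2 := he j
  have a3 : e i ≠ e j := fun h => hij (m3 h)
  rcases ρ with r | _ | _ <;> rcases ρ' with r' | _ | _ <;> simp only [ri] at h2 h3 <;>
    rcases h1 with rfl | rfl <;> grind

theorem design5 [NeZero k] [Fintype R] (n : ℕ) (hn : n = 2 * Fintype.card R + 1) {w : ℝ}
    (hw : 0 ≤ w) (hk : 3 ≤ k) (a L : Fin k) (ha : (a : ℕ) = 0) (hL : (L : ℕ) + 1 = k)
    (M : Fin k → R → R) (e : Fin k → R) (s : R)
    (m1 : ∀ j, Function.Injective (M j)) (m2 : ∀ r i j, M i r = M j r → i = j)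
    (m3 : Function.Injective e) (he : ∀ j, e j ≠ s) (n1 : ∀ j, M j s ≠ M a (e a))
    (n2 : ∀ j, M j s ≠ M L (e L))
    (n3 : ∀ i j, i ≠ a → i ≠ L → j ≠ a → j ≠ L → M i (e i) = M j (e j) → i = j)
    (n4 : ∀ i j, i ≠ a → i ≠ L → j = a ∨ j = L → M i (e i) ≠ M j s) :
    ∃ (μ : (Fin k → Fin n) → ℝ) (K : Fin k → (Fin k → Fin n) → Fin n → ℝ), IsMAC w μ K := by
  obtain ⟨b, hb⟩ : ∃ b : Fin k, (b : ℕ) = 1 := ⟨⟨1, by omega⟩, rfl⟩
  have hab : a ≠ b := fun h => by rw [h] at ha; omega
  have hLa : L ≠ a := fun h => by rw [h] at hL; omega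
  have hle : ∀ l : Fin k, l ≤ L := fun l => show (l : ℕ) ≤ L by have := l.2; omega
  obtain ⟨U, hU⟩ : ∃ U : R ⊕ Bool → Option (Fin k), ∀ ρ j, U ρ = some j ↔
      ρ = .inl (e j) ∨ (ρ = .inr false ∧ j = a) ∨ (ρ = .inr true ∧ j = L) := by
    refine ⟨Sum.elim (fun r => if h : ∃ j, e j = r then some h.choose else none)
      fun β => if β = true then some L else some a, fun ρ j => ?_⟩
    rcases ρ with r | _ | _
    · simp only [Sum.elim_inl, Sum.inl.injEq, reduceCtorEq, false_and, or_false]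
      split_ifs with h
      · rw [Option.some.injEq]
        exact ⟨fun h' => h' ▸ h.choose_spec.symm, fun h' => m3 (h.choose_spec.trans h')⟩
      · exact ⟨fun h' => (by cases h'), fun h' : r = e j => absurd ⟨j, h'.symm⟩ h⟩
    · simp [eq_comm]
    · simp [eq_comm]
  have hT : ∀ ρ j, j = a ∨ j = L → ri a L e s ρ j = e j → U ρ = some j := fun ρ j h1 h2 => by
    have a1 := he j
    rw [hU]
    rcases ρ with r | _ | _ <;> simp only [ri] at h2 <;> rcases h1 with rfl | rfl <;> grind
  have hP : ∀ ρ j, U ρ = some j → ri a L e s ρ j = e j := fun ρ j h => by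
    rcases (hU ρ j).1 h with rfl | ⟨rfl, rfl⟩ | ⟨rfl, rfl⟩ <;> simp [ri]
  set q : (R ⊕ Bool) × Bool → R ⊕ Bool → ℝ := fun φ ρ => om s ρ + if ρ = φ.1 then w - 1 else 0
    with hq
  set π : Fin k → ℝ := fun j => if j = L then 1 / 3 else 1 / 2 with hπ
  have hπ2 : ∀ j, π j ≤ 1 / 2 := fun j => by
    simp only [hπ]
    split_ifs <;> norm_num
  have A1 : ∀ φ j, AA U q φ j = 2 + (if j = a then 1 else 0) + (if j = L then 1 else 0) +
      if U φ.1 = some j then w - 1 else 0 := fun φ j => by
    simp only [AA, hq]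
    rw [sum_q5]
    congr 1
    rw [Fintype.sum_sum_type, Fintype.sum_bool]
    simp [hU, om, he j]
    ring
  refine zrow n hn hw a b L ha hb hL (show (b : ℕ) < L by omega)
    (fun ρ j => M j (ri a L e s ρ j)) U (fun j => M j (e j)) q π
    (fun ρ i j h => ?_) (fun ρ j h => by rw [hP ρ j h])
    (fun ρ ρ' h1 h2 => ri_dec hLa he m3 hab (Or.inl rfl) (m1 _ h1) (m1 _ h2))
    (fun ρ h => hT ρ a (Or.inl rfl) (m1 _ h))
    (fun J hJ ρ ρ' h1 h2 => ri_dec hLa he m3 hJ.ne' (Or.inr rfl) (m1 _ h2) (m1 _ h1))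
    (fun φ ρ => ?_) (fun φ => ?_) (fun ρ _ => rfl)
    (fun j => by linarith [hπ2 j]) (fun φ j => ?_) (fun φ₁ φ₂ h => ?_)
    (fun φ o h1 h2 => ?_) (fun _ _ _ _ _ _ _ => rfl)
    (fun ρ ρ' o h1 h2 h3 => ?_) (fun i ρ t x h => ?_) (.inl s) fun o h => ?_
  · have a1 := n1 i
    have a2 := n1 j
    have a3 := n2 i
    have a4 := n2 j
    have a5 := n3 i j
    have a6 := n4 i j
    have a7 := n4 j i
    rcases ρ with r | _ | _
    · have a8 := m2 r i j
      simp only [ri] at h
      grind
    · have a8 := m2 s i j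
      simp only [ri] at h
      grind
    · have a8 := m2 s i j
      simp only [ri] at h
      grind
  · have : 1 ≤ om s ρ := by
      rcases ρ with r | _
      · simp only [om]
        split_ifs <;> norm_num
      · exact le_rfl
    simp only [hq]
    split_ifs <;> linarith
  · have e1 : ∑ r : R, (if r = s then (1 : ℝ) else 2) = 2 * Fintype.card R - 1 := by
      rw [sum_congr rfl (g := fun r => 2 - if r = s then 1 else 0) fun r _ => by
        split_ifs <;> norm_num]
      simp [sum_sub_distrib, mul_comm]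
    simp only [hq, sum_add_distrib, sum_ite_eq', mem_univ, if_true, Fintype.sum_sum_type, om, e1,
      hn]
    simp
    ring
  · rw [A1]
    by_cases h : U φ.1 = some j
    · rw [zm_self _ w h, if_pos h]
      split_ifs <;> linarith
    · refine (zm_le hπ2 w h).trans ?_
      rw [if_neg h]
      split_ifs <;> norm_num
  · have e1 : ∀ φ : (R ⊕ Bool) × Bool, U φ.1 ≠ some L → zm U π w φ L = 1 := fun φ h2 =>
      zm_low _ w fun o ho => lt_of_le_of_ne (hle o) fun h3 => h2 (h3 ▸ ho)
    rw [A1, A1]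
    unfold GZ at h
    by_cases h1 : U φ₁.1 = some L ∧ φ₁.2 = true <;> by_cases h2 : U φ₂.1 = some L ∧ φ₂.2 = true
    · rw [zm_self _ w h1.1, zm_self _ w h2.1, h1.1, h1.2, h2.1, h2.2]
    · rw [if_pos h1, if_neg h2] at h
      cases h
    · rw [if_neg h1, if_pos h2] at h
      cases h
    · rw [if_neg h1, if_neg h2] at h
      have h3 := m1 L (Option.some.inj h)
      by_cases h4 : U φ₁.1 = some L
      · have h5 := hT φ₂.1 L (Or.inr rfl) (h3 ▸ hP _ _ h4)
        rw [zm_self _ w h4, zm_self _ w h5, if_neg fun h => h1 ⟨h4, h⟩,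
          if_neg fun h => h2 ⟨h5, h⟩, h4, h5]
      · have h5 : U φ₂.1 ≠ some L := fun h5 => h4 (hT φ₁.1 L (Or.inr rfl) (h3 ▸ hP _ _ h5))
        rw [e1 _ h4, e1 _ h5, if_neg h4, if_neg h5]
  · rw [A1, if_neg h1, if_neg h2]
    simp only [hπ]
    split_ifs <;> norm_num
  · rw [A1, A1, if_neg h1, if_pos h2]
    simp only [hπ, hq]
    have h4 : 2 + 0 + 1 + (w - 1) ≠ 0 := by linarith
    have h5 : 2 + 0 + 0 + (w - 1) ≠ 0 := by linarith
    by_cases h6 : o = L
    · simp only [h6, if_true]
      field_simp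
      ring
    · simp only [h6, if_false]
      field_simp
      ring
  · obtain ⟨r, rfl⟩ := (Finite.injective_iff_surjective.1 (m1 i)) x
    simp only [hq, (m1 i).eq_iff]
    rw [sum_q5, sum_ri hLa he]
    simp only [eq_comm (b := r)]
    ring
  · rcases (hU _ _).1 h with h1 | h1 | h1
    · exact absurd (Sum.inl.inj h1).symm (he o)
    · exact h1.2
    · cases h1.1

end Pool.Agent.MP_1dd261_pr.Odd
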