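import Mathlib

/-! The Latin rectangles used by the two designs. -/

namespace Pool.Agent.MP_1dd261_pr.Odd

/-- A Latin rectangle with `K` lines on `m` symbols. -/
def Lat (m K : ℕ) (f : ℕ → ℕ → ℕ) : Prop :=
  (∀ t r, t < K → r < m → f t r < m) ∧
    (∀ t r r', t < K → r < m → r' < m → f t r = f t r' → r = r') ∧
    ∀ r t t', r < m → t < K → t' < K → f t r = f t' r → t = t'

theorem lat_cyc (m K : ℕ) (c : ℕ → ℕ) (h1 : ∀ t, t < K → c t < m)
    (h2 : ∀ t t', t < K → t' < K → c t = c t' → t = t') :
    Lat m K fun t r => if r + c t < m then r + c t else r + c t - m := by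
  refine ⟨fun t r ht hr => ?_, fun t r r' ht hr hr' h => ?_, fun r t t' hr ht ht' h => ?_⟩
  · have := h1 t ht
    dsimp only
    split_ifs <;> omega
  · have := h1 t ht
    dsimp only at h
    split_ifs at h <;> omega
  · have := h1 t ht
    have := h1 t' ht'
    refine h2 t t' ht ht' ?_
    dsimp only at h
    split_ifs at h <;> omega

theorem lat6 (m : ℕ) (hm : 3 ≤ m) : ∃ f, Lat m m f ∧
    ∀ t t', t < m → t' < m → f t t = f t' t' → t = t' := by
  rcases Nat.even_or_odd' m with ⟨h, rfl | rfl⟩
  · obtain ⟨q, hq⟩ : ∃ q, 2 * h = q + 1 := ⟨2 * h - 1, by omega⟩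
    refine ⟨fun c r => if r = q then (if c = q then q else if c = 0 then q - 1
        else if 2 * c - 1 < q then 2 * c - 1 else 2 * c - 1 - q)
      else if c = q then (if 2 * r + 1 < q then 2 * r + 1 else 2 * r + 1 - q)
      else if c = r + 1 ∨ (c = 0 ∧ r + 1 = q) then q
      else if r + c < q then r + c else r + c - q,
      ⟨fun t r ht hr => ?_, fun t r r' ht hr hr' h => ?_, fun r t t' hr ht ht' h => ?_⟩,
      fun t t' ht ht' h => ?_⟩
    · dsimp only
      split_ifs <;> omega
    · dsimp only at h
      split_ifs at h <;> omega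
    · dsimp only at h
      split_ifs at h <;> omega
    · dsimp only at h
      split_ifs at h <;> omega
  · refine ⟨_, lat_cyc _ _ id (fun _ h => h) fun _ _ _ _ h => h, fun t t' ht ht' h => ?_⟩
    simp only [id] at h
    split_ifs at h <;> omega

/-- The extra conditions for the design with three rows of weight one. -/
def Ex5 (m : ℕ) (f : ℕ → ℕ → ℕ) (g : ℕ → ℕ) : Prop :=
  (∀ t, t < m - 1 → g t < m ∧ g t ≠ 0 ∧ f t 0 ≠ f 0 (g 0) ∧ f t 0 ≠ f 1 (g 1) ∧
    (2 ≤ t → f t (g t) ≠ f 0 0 ∧ f t (g t) ≠ f 1 0)) ∧
  ∀ t, t < m - 1 → ∀ t', t' < m - 1 → (g t = g t' → t = t') ∧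
    (2 ≤ t → 2 ≤ t' → f t (g t) = f t' (g t') → t = t')

theorem lat5 (m : ℕ) (hm : 4 ≤ m) : ∃ f g, Lat m (m - 1) f ∧ Ex5 m f g := by
  rcases Nat.even_or_odd' m with ⟨h, rfl | rfl⟩
  · refine ⟨_, fun t => if t = 0 then h + 1 else if t = 1 then h else if t + 1 ≤ h then t + h
      else t + 1 - h, lat_cyc _ _ (fun t => if t = 0 then h - 1 else if t = 1 then h
        else if t + 1 ≤ h then t - 1 else t + 1) (fun t ht => ?_) (fun t t' ht ht' h => ?_),
      fun t ht => ?_, fun t ht t' ht' => ?_⟩
    · split_ifs <;> omega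
    · split_ifs at h <;> omega
    · simp only [if_true, one_ne_zero, if_false]
      split_ifs <;> omega
    · dsimp only
      split_ifs <;> omega
  · by_cases h5 : h = 2
    · subst h5
      refine ⟨fun t r => (([[0, 1, 2, 3, 4], [1, 2, 4, 0, 3], [2, 3, 0, 4, 1],
        [3, 4, 1, 2, 0]].getD t []).getD r 0), fun t => [4, 2, 1, 3].getD t 0,
        ⟨fun t r ht hr => ?_, fun t r r' ht hr hr' => ?_, fun r t t' hr ht ht' => ?_⟩, ?_⟩
      · revert r
        revert t
        decide
      · revert r'
        revert r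
        revert t
        decide
      · revert t'
        revert t
        revert r
        decide
      · refine ⟨fun t ht => ?_, fun t ht t' ht' => ?_⟩
        · interval_cases t <;> decide
        · interval_cases t <;> interval_cases t' <;> decide
    · refine ⟨_, fun t => if t = 0 then 2 * h - 1 else if t = 1 then 2 * h - 3
        else if t = 2 then 2 * h - 4 else if t = 3 then 2 * h - 2
        else if t + 1 = 2 * h then 2 * h else t - 3,
        lat_cyc _ _ (fun t => if t = 0 then 2 else if t = 1 then 4 else if t = 2 then 1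
          else if t = 3 then 3 else t + 1) (fun t ht => ?_) (fun t t' ht ht' h => ?_),
        fun t ht => ?_, fun t ht t' ht' => ?_⟩
      · split_ifs <;> omega
      · split_ifs at h <;> omega
      · simp only [if_true, one_ne_zero, if_false]
        split_ifs <;> omega
      · dsimp only
        split_ifs <;> omega

end Pool.Agent.MP_1dd261_pr.Odd
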