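import Pool.Agent.MP_1dd261_pr.Odd.F
import Pool.Agent.MP_1dd261_pr.Odd.G

/-! Couplings on an odd number of vertices. -/

namespace Pool.Agent.MP_1dd261_pr.Odd

theorem odd_small {k m : ℕ} [NeZero k] (hk : 3 ≤ k) (hm : k ≤ m) {w : ℝ} (hw : 0 ≤ w)
    (hw2 : w ≤ 2) : ∃ (μ : (Fin k → Fin (2 * m + 1)) → ℝ)
      (K : Fin k → (Fin k → Fin (2 * m + 1)) → Fin (2 * m + 1) → ℝ), IsMAC w μ K := by
  obtain ⟨f, ⟨f0, f1, f2⟩, f3⟩ := lat6 m (by omega)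
  have c : ∀ j : Fin k, (j : ℕ) < m := fun j => j.2.trans_le hm
  exact design6 (R := Fin m) _ (by simp) hw hw2 hk (fun j r => ⟨f j r, f0 _ _ (c j) r.2⟩)
    (fun j => ⟨j, c j⟩) (fun j r r' h => Fin.ext (f1 _ _ _ (c j) r.2 r'.2 (congrArg Fin.val h)))
    (fun r i j h => Fin.ext (f2 _ _ _ r.2 (c i) (c j) (congrArg Fin.val h)))
    (fun i j h => Fin.ext (congrArg Fin.val h :))
    fun i j h => Fin.ext (f3 _ _ (c i) (c j) (congrArg Fin.val h))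

theorem odd_all {k m : ℕ} [NeZero k] (hk : 3 ≤ k) (hm : k + 1 ≤ m) {w : ℝ} (hw : 0 ≤ w) :
    ∃ (μ : (Fin k → Fin (2 * m + 1)) → ℝ)
      (K : Fin k → (Fin k → Fin (2 * m + 1)) → Fin (2 * m + 1) → ℝ), IsMAC w μ K := by
  obtain ⟨f, g, ⟨f0, f1, f2⟩, g1, g2⟩ := lat5 m (by omega)
  obtain ⟨a, ha⟩ : ∃ a : Fin k, (a : ℕ) = 0 := ⟨⟨0, by omega⟩, rfl⟩
  obtain ⟨L, hL⟩ : ∃ L : Fin k, (L : ℕ) + 1 = k := ⟨⟨k - 1, by omega⟩, by simp only; omega⟩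
  obtain ⟨ι, c, i0, i1, i2, i3⟩ : ∃ ι : Fin k → ℕ, (∀ j, ι j < m - 1) ∧ ι a = 0 ∧ ι L = 1 ∧
      (∀ j, j ≠ a → j ≠ L → 2 ≤ ι j) ∧ ∀ i j, ι i = ι j → i = j := by
    refine ⟨fun j => if (j : ℕ) = 0 then 0 else if (j : ℕ) + 1 = k then 1 else j + 1,
      fun j => ?_, if_pos ha, (if_neg (by omega)).trans (if_pos hL), fun j h1 h2 => ?_,
      fun i j h => Fin.ext ?_⟩
    · have := j.2
      dsimp only
      split_ifs <;> omega
    · have h3 : (j : ℕ) ≠ a := fun h => h1 (Fin.ext h)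
      have h4 : (j : ℕ) ≠ L := fun h => h2 (Fin.ext h)
      dsimp only
      split_ifs <;> omega
    · dsimp only at h
      split_ifs at h <;> omega
  refine design5 (R := Fin m) _ (by simp) hw hk a L ha hL
    (fun j r => ⟨f (ι j) r, f0 _ _ (c j) r.2⟩) (fun j => ⟨g (ι j), (g1 _ (c j)).1⟩) ⟨0, by omega⟩
    (fun j r r' h => Fin.ext (f1 _ _ _ (c j) r.2 r'.2 (congrArg Fin.val h)))
    (fun r i j h => i3 _ _ (f2 _ _ _ r.2 (c i) (c j) (congrArg Fin.val h)))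
    (fun i j h => i3 _ _ ((g2 _ (c i) _ (c j)).1 (congrArg Fin.val h)))
    (fun j h => (g1 _ (c j)).2.1 (congrArg Fin.val h))
    (fun j h => (g1 _ (c j)).2.2.1 ?_) (fun j h => (g1 _ (c j)).2.2.2.1 ?_)
    (fun i j h1 h2 h3 h4 h => i3 _ _ ((g2 _ (c i) _ (c j)).2 (i2 i h1 h2) (i2 j h3 h4)
      (congrArg Fin.val h))) fun i j h1 h2 h3 h => ?_
  · have h5 : f (ι j) 0 = f (ι a) (g (ι a)) := congrArg Fin.val h
    rwa [i0] at h5
  · have h5 : f (ι j) 0 = f (ι L) (g (ι L)) := congrArg Fin.val h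
    rwa [i1] at h5
  · have h4 := (g1 _ (c i)).2.2.2.2 (i2 i h1 h2)
    have h5 : f (ι i) (g (ι i)) = f (ι j) 0 := congrArg Fin.val h
    rcases h3 with rfl | rfl
    · exact h4.1 (by rwa [i0] at h5)
    · exact h4.2 (by rwa [i1] at h5)

end Pool.Agent.MP_1dd261_pr.Odd
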